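import Pool.Agent.N879.GD.Stm
import Pool.Agent.H153R4.Pl

/-!
# Project GZ (helper260), package PL: Plancherel's theorem for the Mellin transform
-/

set_option autoImplicit false

namespace Pool.Agent.U263.GZPL

open Complex Filter Topology MeasureTheory Set FourierTransform Convolution
open Pool.Agent.N879.GD
open scoped ENNReal

theorem exp_img : Real.exp '' univ = Ioi (0 : ℝ) := by
  rw [image_univ, Real.range_exp]

theorem lint (Φ : ℝ → ℝ≥0∞) :
    ∫⁻ t in Ioi (0 : ℝ), Φ t * ENNReal.ofReal t⁻¹ = ∫⁻ x : ℝ, Φ (Real.exp x) := by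
  rw [← exp_img, lintegral_image_eq_lintegral_abs_deriv_mul MeasurableSet.univ
    (fun x _ => (Real.hasDerivAt_exp x).hasDerivWithinAt) Real.exp_injective.injOn,
    Measure.restrict_univ]
  refine lintegral_congr fun x => ?_
  have hx := Real.exp_pos x
  rw [abs_of_pos hx, mul_comm (Φ _), ← mul_assoc, ← ENNReal.ofReal_mul hx.le,
    mul_inv_cancel₀ hx.ne', ENNReal.ofReal_one, one_mul]

theorem cint (Φ : ℝ → ℂ) :
    ∫ t in Ioi (0 : ℝ), Φ t / t = ∫ x : ℝ, Φ (Real.exp x) := by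
  rw [← exp_img, integral_image_eq_integral_abs_deriv_smul MeasurableSet.univ
    (fun x _ => (Real.hasDerivAt_exp x).hasDerivWithinAt) Real.exp_injective.injOn,
    Measure.restrict_univ]
  refine integral_congr_ae (Eventually.of_forall fun x => ?_)
  have hx := Real.exp_pos x
  have hx' : ((Real.exp x : ℝ) : ℂ) ≠ 0 := by exact_mod_cast hx.ne'
  show |Real.exp x| • (Φ (Real.exp x) / ((Real.exp x : ℝ) : ℂ)) = Φ (Real.exp x)
  rw [abs_of_pos hx, Complex.real_smul, mul_div_cancel₀ _ hx']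

/-- the square integrable functions with support in an interval -/
theorem memLp_one_of {f : ℝ → ℂ} {a b : ℝ} (h0 : ∀ x, x ∉ Icc a b → f x = 0) (h2 : MemLp f 2) :
    Integrable f := by
  have h1 : (Icc a b).indicator f = f := by
    funext x
    by_cases hx : x ∈ Icc a b
    · rw [indicator_of_mem hx]
    · rw [indicator_of_notMem hx, h0 x hx]
  rw [← h1, integrable_indicator_iff measurableSet_Icc]
  have h3 : MemLp f 2 (volume.restrict (Icc a b)) := h2.restrict _
  have h4 : MemLp f 1 (volume.restrict (Icc a b)) := h3.mono_exponent (by norm_num)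
  exact memLp_one_iff_integrable.1 h4

theorem t_PL : S_PL := by
  intro F G a b B ha hab hF hF0 hF2 hG hG0 hB hMel
  set f : ℝ → ℂ := fun x => F (Real.exp x) with hf
  set g : ℝ → ℂ := fun x => G (Real.exp x) with hg
  have hb : 0 < b := ha.trans_le hab
  have hsup : ∀ x, x ∉ Icc (Real.log a) (Real.log b) → Real.exp x ∉ Icc a b := by
    intro x hx h
    apply hx
    exact ⟨(Real.log_le_iff_le_exp ha).2 h.1, (Real.le_log_iff_exp_le hb).2 h.2⟩
  have hf0 : ∀ x, x ∉ Icc (Real.log a) (Real.log b) → f x = 0 := fun x hx => hF0 _ (hsup x hx)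
  have hg0 : ∀ x, x ∉ Icc (Real.log a) (Real.log b) → g x = 0 := fun x hx => hG0 _ (hsup x hx)
  have hfm : Measurable f := hF.comp Real.measurable_exp
  have hgc : Continuous g := hG.comp Real.continuous_exp
  -- the norms
  have hfn : ∫⁻ x : ℝ, ‖f x‖ₑ ^ 2 = ∫⁻ t in Ioi (0 : ℝ), ‖F t‖ₑ ^ 2 * ENNReal.ofReal t⁻¹ :=
    (lint fun t => ‖F t‖ₑ ^ 2).symm
  have hffin : ∫⁻ x : ℝ, ‖f x‖ₑ ^ 2 ≠ ⊤ := by
    rw [hfn]
    have h1 : ∫⁻ t in Ioi (0 : ℝ), ‖F t‖ₑ ^ 2 * ENNReal.ofReal t⁻¹ ≤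
        ENNReal.ofReal a⁻¹ * ∫⁻ t, ‖F t‖ₑ ^ 2 := by
      rw [← lintegral_const_mul _ (by fun_prop)]
      refine (setLIntegral_le_lintegral _ _).trans (lintegral_mono fun t => ?_)
      by_cases ht : t ∈ Icc a b
      · rw [mul_comm]
        refine mul_le_mul_left ?_ _
        exact ENNReal.ofReal_le_ofReal (inv_anti₀ ha ht.1)
      · rw [hF0 t ht]
        simp
    exact ne_top_of_le_ne_top (ENNReal.mul_ne_top ENNReal.ofReal_ne_top hF2) h1
  have hf2 : MemLp f 2 := by
    refine ⟨hfm.aestronglyMeasurable, ?_⟩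
    rw [eLpNorm_lt_top_iff_lintegral_rpow_enorm_lt_top (by norm_num) (by norm_num)]
    have e : ∀ x : ℝ, ‖f x‖ₑ ^ (2 : ℝ≥0∞).toReal = ‖f x‖ₑ ^ 2 := by
      intro x
      rw [ENNReal.toReal_ofNat, ← ENNReal.rpow_natCast]
      norm_num
    simp only [e]
    exact hffin.lt_top
  have hf1 : Integrable f := memLp_one_of hf0 hf2
  have hgcs : HasCompactSupport g := HasCompactSupport.intro isCompact_Icc hg0
  have hg1 : Integrable g := hgc.integrable_of_hasCompactSupport hgcs
  -- the reflected function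
  set f' : ℝ → ℂ := fun x => f (-x) with hf'
  have hf'1 : Integrable f' := hf1.comp_neg
  have hf'2 : MemLp f' 2 := hf2.comp_measurePreserving (Measure.measurePreserving_neg volume)
  have hf'n : ∫⁻ x : ℝ, ‖f' x‖ₑ ^ 2 = ∫⁻ x : ℝ, ‖f x‖ₑ ^ 2 :=
    (Measure.measurePreserving_neg (volume : Measure ℝ)).lintegral_comp (hfm.enorm.pow_const 2)
  set h : ℝ → ℂ := f' ⋆[ContinuousLinearMap.mul ℂ ℂ] g with hh
  have hheq : ∀ s : ℝ, h s = ∫ x : ℝ, f x * g (s + x) := by
    intro s
    rw [hh]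
    show ∫ t, (ContinuousLinearMap.mul ℂ ℂ (f' t)) (g (s - t)) = _
    rw [← integral_neg_eq_self]
    refine integral_congr_ae (Eventually.of_forall fun x => ?_)
    show f (- -x) * g (s - -x) = f x * g (s + x)
    rw [neg_neg, sub_neg_eq_add]
  have hh1 : Integrable h := hf'1.integrable_convolution _ hg1
  obtain ⟨M, hM⟩ := hgc.bounded_above_of_compact_support hgcs
  have hhb : ∀ s, ‖h s‖ ≤ (∫ x, ‖f x‖) * M := by
    intro s
    rw [hheq s]
    refine (norm_integral_le_integral_norm _).trans ?_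
    rw [← integral_mul_const]
    refine integral_mono_of_nonneg (Eventually.of_forall fun x => norm_nonneg _)
      (hf1.norm.mul_const M) (Eventually.of_forall fun x => ?_)
    show ‖f x * g (s + x)‖ ≤ ‖f x‖ * M
    rw [norm_mul]
    exact mul_le_mul_of_nonneg_left (hM _) (norm_nonneg _)
  have hh2 : MemLp h 2 := by
    rw [memLp_two_iff_integrable_sq_norm hh1.aestronglyMeasurable]
    refine (hh1.norm.mul_const ((∫ x, ‖f x‖) * M)).mono'
      (hh1.aestronglyMeasurable.norm.pow 2) (Eventually.of_forall fun x => ?_)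
    rw [Real.norm_eq_abs, abs_of_nonneg (sq_nonneg _), sq]
    exact mul_le_mul_of_nonneg_left (hhb x) (norm_nonneg _)
  -- the Fourier transform of `g`
  have hgb : ∀ ξ : ℝ, ‖𝓕 g ξ‖ ≤ B := by
    intro ξ
    have h1 := hMel (2 * Real.pi * ξ)
    have h2 : (∫ u in Ioi (0 : ℝ), G u / u *
        cexp (-(I * (((2 * Real.pi * ξ) * Real.log u : ℝ) : ℂ)))) = 𝓕 g ξ := by
      rw [Real.fourier_real_eq_integral_exp_smul]
      have h3 := cint fun u => G u * cexp (-(I * (((2 * Real.pi * ξ) * Real.log u : ℝ) : ℂ)))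
      have h4 : (fun u : ℝ => G u / u * cexp (-(I * (((2 * Real.pi * ξ) * Real.log u : ℝ) : ℂ)))) =
          fun u : ℝ => G u * cexp (-(I * (((2 * Real.pi * ξ) * Real.log u : ℝ) : ℂ))) / u := by
        funext u
        ring
      rw [h4, h3]
      refine integral_congr_ae (Eventually.of_forall fun x => ?_)
      show G (Real.exp x) * cexp (-(I * (((2 * Real.pi * ξ) * Real.log (Real.exp x) : ℝ) : ℂ))) =
        cexp (((-2 * Real.pi * x * ξ : ℝ) : ℂ) * I) • G (Real.exp x)
      rw [Real.log_exp, smul_eq_mul, mul_comm]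
      congr 2
      push_cast
      ring
    rw [h2] at h1
    exact h1
  -- the correlation
  have e1 : ∀ l ∈ Ioi (0 : ℝ), (∫ t in Ioi (0 : ℝ), F t * G (l * t) / t) = h (Real.log l) := by
    intro l hl
    rw [hheq, cint fun t => F t * G (l * t)]
    refine integral_congr_ae (Eventually.of_forall fun x => ?_)
    show F (Real.exp x) * G (l * Real.exp x) = F (Real.exp x) * G (Real.exp (Real.log l + x))
    rw [Real.exp_add, Real.exp_log hl]
  have e2 : ∫⁻ l in Ioi (0 : ℝ), ‖∫ t in Ioi (0 : ℝ), F t * G (l * t) / t‖ₑ ^ 2 *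
      ENNReal.ofReal l⁻¹ = ∫⁻ s : ℝ, ‖h s‖ₑ ^ 2 := by
    rw [lint fun l => ‖∫ t in Ioi (0 : ℝ), F t * G (l * t) / t‖ₑ ^ 2]
    refine lintegral_congr fun s => ?_
    rw [e1 _ (Real.exp_pos s), Real.log_exp]
  rw [e2, ← hfn, ← hf'n, ← Pool.Agent.H153R4.plancherel h hh1 hh2,
    ← Pool.Agent.H153R4.plancherel f' hf'1 hf'2]
  have hcont : Continuous (𝓕 f') := VectorFourier.fourierIntegral_continuous
    Real.continuous_fourierChar (innerSL ℝ).continuous₂ hf'1
  rw [← lintegral_const_mul _ (by fun_prop)]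
  refine lintegral_mono fun ξ => ?_
  show ‖𝓕 h ξ‖ₑ ^ 2 ≤ ENNReal.ofReal (B ^ 2) * ‖𝓕 f' ξ‖ₑ ^ 2
  rw [hh, Real.fourier_mul_convolution_eq hf'1 hg1, enorm_mul, mul_pow, mul_comm]
  refine mul_le_mul_left ?_ _
  rw [ENNReal.ofReal_pow hB]
  refine pow_le_pow_left' ?_ 2
  rw [← ofReal_norm_eq_enorm]
  exact ENNReal.ofReal_le_ofReal (hgb ξ)

end Pool.Agent.U263.GZPL
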