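import Pool.Agent.U79.GZ.Stm
import Pool.Agent.U95.GZ.DSC1G
import Pool.Agent.U739.GE.GOOD
import Pool.Agent.U962.GZ.Core
import Pool.Agent.U115.GE.Sel

/-!
# Project GZ (helper79), part DSCE: local solubility
-/

set_option autoImplicit false
set_option linter.style.haveILetI false
set_option linter.unusedVariables false

open scoped Classical

namespace Pool.Agent.U263.GZE

open Finset hiding ext
open Pool.Agent.Y703.CQ (nr)
open Pool.Agent.Y687 (prime_cast_ne)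
open Pool.Agent.U115.GE (Qs ELS SelSet sel RtG lsol_of_qs qs_sq qs_sqb rtG_iff S_GOOD)
open Pool.Agent.U115.TP (LSol)
open Pool.Agent.U79.GY (Mod)
open Pool.Agent.U255.GY (ff dv uu xx Hyp eq_uu uu_dvd dv_not xx_zero row ne_of_mem nz nz_mul nz_prod nz_nat)
open Pool.Agent.U95.GZ (La qs_iff qs_mul qs_of_sq)
open Pool.Agent.Y971.SG.Lq (t_SQ)
open Pool.Agent.TH841.LS.LOCA0

theorem at_split {a b : ℤ} {p : ℕ} [hp : Fact p.Prime] (p2 : p ≠ 2) (hb : IsSquare (b : ZMod p))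
    (hb0 : (b : ZMod p) ≠ 0) (hc : IsSquare ((a ^ 2 - 4 * b : ℤ) : ZMod p))
    (hc0 : ((a ^ 2 - 4 * b : ℤ) : ZMod p) ≠ 0) {D1 d1 : ℤ} (hD1 : (D1 : ZMod p) ≠ 0)
    (hd1 : (d1 : ZMod p) ≠ 0) (hk : ¬ (IsSquare ((d1 * D1 : ℤ) : ZMod p) ↔ RtG a b p 1)) :
    Qs ℚ_[p] (a * (p * D1)) (b * (p * D1) ^ 2) (p * d1) := by
  have n2 : (2 : ZMod p) ≠ 0 := by exact_mod_cast prime_cast_ne hp.out 2 Nat.prime_two p2
  obtain ⟨δ, hδ⟩ : IsSquare ((a ^ 2 - 4 * b : ℤ) : ℤ_[p]) := by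
    apply sq_of_char p2
    rw [map_intCast]
    exact (quadraticChar_one_iff_isSquare hc0).2 hc
  obtain ⟨i2, hi2⟩ : ∃ i2 : ℤ_[p], i2 * 2 = 1 := by
    have h1 : IsUnit (2 : ℤ_[p]) := by
      by_contra h1
      have h2 : PadicInt.toZMod (p := p) 2 = 0 := by
        rw [← RingHom.mem_ker, PadicInt.ker_toZMod]
        exact (IsLocalRing.mem_maximalIdeal _).2 h1
      rw [map_ofNat] at h2
      exact n2 h2
    obtain ⟨v, hv⟩ := h1
    exact ⟨(v⁻¹ : (ℤ_[p])ˣ), by rw [← hv]; exact v.inv_mul⟩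
  set ρ : ℤ_[p] := (-(a : ℤ_[p]) + δ) * i2 with hρ
  have hρe : ρ ^ 2 + (a : ℤ_[p]) * ρ + (b : ℤ_[p]) = 0 := by
    rw [hρ]
    push_cast at hδ
    linear_combination (-(i2 ^ 2)) * hδ + (-(a : ℤ_[p]) * (-(a : ℤ_[p]) + δ) * i2 -
      (b : ℤ_[p]) * (1 + i2 * 2)) * (hi2)
  clear_value ρ
  set r : ZMod p := PadicInt.toZMod ρ with hr
  have hre : r ^ 2 + (a : ZMod p) * r + (b : ZMod p) = 0 := by
    have h1 := congrArg (PadicInt.toZMod (p := p)) hρe
    simp only [map_zero, map_add, map_pow, map_mul, map_intCast] at h1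
    exact h1
  have hmr : r ^ 2 + (a : ZMod p) * ((1 : ℕ) : ZMod p) * r +
      (b : ZMod p) * ((1 : ℕ) : ZMod p) ^ 2 = 0 := by
    push_cast
    linear_combination hre
  have hr0 : r ≠ 0 := by
    intro h0
    rw [h0] at hre
    exact hb0 (by linear_combination hre)
  rw [rtG_iff hb hb0 (by push_cast; exact one_ne_zero) hmr] at hk
  have hX0 : ((d1 * D1 : ℤ) : ZMod p) ≠ 0 := by
    push_cast
    exact mul_ne_zero hd1 hD1
  have hsq : IsSquare (((d1 * D1 : ℤ) : ZMod p) * r) := by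
    have h1 : IsSquare ((d1 * D1 : ℤ) : ZMod p) ↔ IsSquare r := by tauto
    rw [← quadraticChar_one_iff_isSquare hX0, ← quadraticChar_one_iff_isSquare hr0] at h1
    rw [← quadraticChar_one_iff_isSquare (mul_ne_zero hX0 hr0), map_mul]
    rcases quadraticChar_dichotomy hX0 with a | a <;> rcases quadraticChar_dichotomy hr0 with b | b
    · rw [a, b, one_mul]
    · exact absurd (h1.1 a) (by rw [b]; norm_num)
    · exact absurd (h1.2 b) (by rw [a]; norm_num)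
    · rw [a, b]; norm_num
  obtain ⟨s, hs⟩ := sq_of_char p2 (u := (((d1 * D1 : ℤ) : ℤ_[p]) * ρ)) (by
      have e : PadicInt.toZMod (((d1 * D1 : ℤ) : ℤ_[p]) * ρ) = ((d1 * D1 : ℤ) : ZMod p) * r := by
        rw [map_mul, map_intCast]
      rw [e]
      exact (quadraticChar_one_iff_isSquare (mul_ne_zero hX0 hr0)).2 hsq)
  have hs' : (d1 : ℚ_[p]) * (D1 : ℚ_[p]) * (ρ : ℚ_[p]) = (s : ℚ_[p]) * s := by
    have := congrArg (fun z : ℤ_[p] => (z : ℚ_[p])) hs
    simp only [PadicInt.coe_mul, PadicInt.coe_intCast] at this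
    push_cast at this
    exact this
  have hρe' : (ρ : ℚ_[p]) ^ 2 + (a : ℚ_[p]) * ρ + (b : ℚ_[p]) = 0 := by
    have := congrArg (fun z : ℤ_[p] => (z : ℚ_[p])) hρe
    simp only [PadicInt.coe_add, PadicInt.coe_mul, PadicInt.coe_intCast, PadicInt.coe_pow,
      PadicInt.coe_zero] at this
    exact this
  have hpK : (p : ℚ_[p]) ≠ 0 := by exact_mod_cast hp.out.ne_zero
  have hd10 : (d1 : ℚ_[p]) ≠ 0 := by
    intro h0
    apply hd1
    have : d1 = 0 := by exact_mod_cast h0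
    rw [this, Int.cast_zero]
  have hD10 : (D1 : ℚ_[p]) ≠ 0 := by
    intro h0
    apply hD1
    have : D1 = 0 := by exact_mod_cast h0
    rw [this, Int.cast_zero]
  have hρ0 : (ρ : ℚ_[p]) ≠ 0 := by
    intro h0
    apply hr0
    have h1 : ρ = 0 := Subtype.coe_injective h0
    rw [hr, h1, map_zero]
  rw [qs_iff (by push_cast; exact mul_ne_zero hpK hd10)]
  refine Or.inr (Or.inr ⟨(p : ℚ_[p]) * D1 * ρ, 0, mul_ne_zero (mul_ne_zero hpK hD10) hρ0, ?_,
    (p : ℚ_[p]) * s, ?_⟩)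
  · push_cast
    linear_combination (-((p : ℚ_[p]) * D1 * ρ) * ((p : ℚ_[p]) * D1) ^ 2) * hρe'
  · push_cast
    linear_combination ((p : ℚ_[p]) ^ 2) * hs'

theorem eq_two_of {l : ℕ} (hl : l.Prime) {n : ℤ} (hn : n.natAbs ∣ 8) (h : (l : ℤ) ∣ n) : l = 2 := by
  have h1 : l ∣ 8 := (Int.natCast_dvd.1 h).trans hn
  have h2 : l ∣ 2 ^ 3 := h1
  exact (Nat.prime_dvd_prime_iff_eq hl Nat.prime_two).1 (hl.dvd_of_dvd_pow h2)

theorem nz_zero_iff {p : ℕ} {n : ℤ} : nz p n = 0 ↔ IsSquare (n : ZMod p) := by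
  unfold nz
  by_cases h : IsSquare (n : ZMod p)
  · simp [h]
  · simp [h]

theorem sumx {P : ℕ → Prop} {S : Finset ℕ} {d : ℤ} {p : ℕ} (hp : p ∈ S) (U : Finset ℕ) (hU : U ⊆ S) :
    ∑ q ∈ U, nr p q * xx P S d q = ∑ q ∈ U.filter (· ∈ dv P S d), nr p q := by
  rw [Finset.sum_filter]
  refine Finset.sum_congr rfl fun q _ => ?_
  unfold xx
  split_ifs <;> simp

/-- the criterion -/
theorem crit (hG : S_GOOD) {a b : ℤ} {P : ℕ → Prop} {S : Finset ℕ} {M : ℕ}
    (hM : Mod b (a ^ 2 - 4 * b) M) (hM2 : ∀ l : ℕ, l.Prime → l ∣ M → l = 2)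
    (h : Hyp a b M P S) {d : ℤ} (hd : Squarefree d)
    (hu2 : ∀ q : ℕ, q.Prime → (q : ℤ) ∣ uu P S d → q = 2)
    (hrow : ∀ p ∈ S, P p → ∑ q ∈ S, nr p q * (xx P S d q + xx P S d p) + ff a b p * xx P S d p =
      nz p (uu P S d))
    (hR : Qs ℝ (a * ((∏ p ∈ S, p : ℕ) : ℤ)) (b * ((∏ p ∈ S, p : ℕ) : ℤ) ^ 2) d)
    (h2 : ∀ [Fact (Nat.Prime 2)], Qs ℚ_[2] (a * ((∏ p ∈ S, p : ℕ) : ℤ)) (b * ((∏ p ∈ S, p : ℕ) : ℤ) ^ 2) d) :
    d ∈ SelSet (a * ((∏ p ∈ S, p : ℕ) : ℤ)) (b * ((∏ p ∈ S, p : ℕ) : ℤ) ^ 2) := by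
  have hS : ∀ p ∈ S, p.Prime := fun p hp => (h p hp).1
  have hu := eq_uu P S hS d
  have hdvS : dv P S d ⊆ S := Finset.filter_subset _ _
  have hTp : ∀ q ∈ dv P S d, q.Prime := fun q hq => hS q (hdvS hq)
  refine ⟨hd, hR, fun l hl => ?_⟩
  by_cases l2 : l = 2
  · subst l2
    exact h2
  have hlP : Prime (l : ℤ) := Nat.prime_iff_prime_int.1 hl.out
  have hlb : ¬ (l : ℤ) ∣ b := fun h => l2 (hM2 l hl.out ((Int.natCast_dvd.1 h).trans hM.hb))
  have hlc : ¬ (l : ℤ) ∣ a ^ 2 - 4 * b :=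
    fun h => l2 (hM2 l hl.out ((Int.natCast_dvd.1 h).trans hM.hc))
  have hb0 : (b : ZMod l) ≠ 0 := by rw [Ne, ZMod.intCast_zmod_eq_zero_iff_dvd]; exact hlb
  have hc0 : ((a ^ 2 - 4 * b : ℤ) : ZMod l) ≠ 0 := by
    rw [Ne, ZMod.intCast_zmod_eq_zero_iff_dvd]; exact hlc
  have hlu : ¬ (l : ℤ) ∣ uu P S d := fun h => l2 (hu2 l hl.out h)
  have hu0 : ((uu P S d : ℤ) : ZMod l) ≠ 0 := by
    rw [Ne, ZMod.intCast_zmod_eq_zero_iff_dvd]; exact hlu
  have hmem : (l : ℤ) ∣ ((∏ q ∈ dv P S d, q : ℕ) : ℤ) → l ∈ dv P S d := by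
    intro h1
    have h3 : l ∣ ∏ q ∈ dv P S d, q := Int.natCast_dvd_natCast.1 h1
    rw [hl.out.prime.dvd_finsetProd_iff] at h3
    obtain ⟨r, hr, hqr⟩ := h3
    rwa [(Nat.prime_dvd_prime_iff_eq hl.out (hTp r hr)).1 hqr]
  by_cases hlT : l ∈ dv P S d
  · -- `l` divides `d`
    have hlS := hdvS hlT
    have hPl : P l := (Finset.mem_filter.1 hlT).2.1
    have hbc : IsSquare (b : ZMod l) ∧ IsSquare ((a ^ 2 - 4 * b : ℤ) : ZMod l) := by
      rcases (h l hlS).2.2 with h7 | h7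
      · exact h7.2
      · exact absurd hPl h7.1
    have hx : xx P S d l = 1 := by simp [xx, hlT]
    set d1 : ℤ := ((∏ q ∈ (dv P S d).erase l, q : ℕ) : ℤ) * uu P S d with hd1
    have hdd : d = l * d1 := by
      rw [hd1]
      conv_lhs => rw [hu]
      rw [← Finset.mul_prod_erase (dv P S d) (fun q => q) hlT]
      push_cast
      ring
    set D1 : ℤ := ((∏ q ∈ S.erase l, q : ℕ) : ℤ) with hD1
    have hMM : ((∏ p ∈ S, p : ℕ) : ℤ) = l * D1 := by
      rw [hD1, ← Finset.mul_prod_erase S (fun q => q) hlS]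
      push_cast
      ring
    have hne1 : (((∏ q ∈ (dv P S d).erase l, q : ℕ) : ℤ) : ZMod l) ≠ 0 :=
      ne_of_mem (fun q hq => hTp q (Finset.mem_of_mem_erase hq)) (Finset.notMem_erase l _)
    have hne2 : ((D1 : ℤ) : ZMod l) ≠ 0 :=
      ne_of_mem (fun q hq => hS q (Finset.mem_of_mem_erase hq)) (Finset.notMem_erase l _)
    have hne3 : ((d1 : ℤ) : ZMod l) ≠ 0 := by
      rw [hd1, Int.cast_mul]
      exact mul_ne_zero hne1 hu0
    have hz : nz l (d1 * D1) = ff a b l := by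
      rw [nz_mul hne3 hne2, hd1, nz_mul hne1 hu0, hD1,
        nz_prod (fun q hq => hTp q (Finset.mem_of_mem_erase hq)) (Finset.notMem_erase l _),
        nz_prod (fun q hq => hS q (Finset.mem_of_mem_erase hq)) (Finset.notMem_erase l _)]
      have e1 : ∑ q ∈ S, nr l q * (xx P S d q + xx P S d l) =
          ∑ q ∈ S.erase l, nr l q * xx P S d q + ∑ q ∈ S.erase l, nr l q := by
        rw [← Finset.add_sum_erase S _ hlS, hx, ← Finset.sum_add_distrib]
        rw [show (1 : ZMod 2) + 1 = 0 by decide, mul_zero, zero_add]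
        refine Finset.sum_congr rfl fun q _ => ?_
        ring
      have e2 : (S.erase l).filter (· ∈ dv P S d) = (dv P S d).erase l := by
        ext q
        simp only [Finset.mem_filter, Finset.mem_erase]
        constructor
        · rintro ⟨⟨h1, -⟩, h2⟩
          exact ⟨h1, h2⟩
        · rintro ⟨h1, h2⟩
          exact ⟨⟨h1, hdvS h2⟩, h2⟩
      have hr := hrow l hlS hPl
      rw [e1, sumx hlS _ (Finset.erase_subset _ _), e2, hx, mul_one] at hr
      generalize ∑ q ∈ (dv P S d).erase l, nr l q = A at hr ⊢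
      generalize ∑ q ∈ S.erase l, nr l q = B at hr ⊢
      generalize nz l (uu P S d) = C at hr ⊢
      generalize ff a b l = E at hr ⊢
      revert A B C E
      decide
    have hk : ¬ (IsSquare ((d1 * D1 : ℤ) : ZMod l) ↔ RtG a b l 1) := by
      intro hiff
      rw [← nz_zero_iff, hz] at hiff
      unfold ff at hiff
      by_cases h3 : RtG a b l 1
      · rw [if_pos h3] at hiff
        exact absurd (hiff.2 h3) (by decide)
      · rw [if_neg h3] at hiff
        exact h3 (hiff.1 rfl)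
    have := at_split l2 hbc.1 hb0 hbc.2 hc0 hne2 hne3 hk
    rw [hMM, hdd]
    exact this
  · have hld : ¬ (l : ℤ) ∣ d := by
      intro h1
      rw [hu] at h1
      rcases hlP.dvd_or_dvd h1 with h3 | h3
      · exact hlT (hmem h3)
      · exact hlu h3
    by_cases hlS : l ∈ S
    · rcases (h l hlS).2.2 with ⟨hPl, hb, hc⟩ | ⟨hPl, hb, hc⟩
      · -- split
        have hx : xx P S d l = 0 := by simp [xx, hlT]
        have hr := hrow l hlS hPl
        have e2 : S.filter (· ∈ dv P S d) = dv P S d := by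
          ext q
          simp only [Finset.mem_filter]
          exact ⟨fun h1 => h1.2, fun h1 => ⟨hdvS h1, h1⟩⟩
        rw [hx] at hr
        simp only [add_zero, mul_zero] at hr
        rw [sumx hlS _ (Finset.Subset.refl _), e2] at hr
        have hne1 : (((∏ q ∈ (dv P S d), q : ℕ) : ℤ) : ZMod l) ≠ 0 := ne_of_mem hTp hlT
        have hz : nz l d = 0 := by
          rw [hu, nz_mul hne1 hu0, nz_prod hTp hlT, hr]
          generalize nz l (uu P S d) = C
          revert C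
          decide
        exact qs_sq (t_SQ l d l2 hld (nz_zero_iff.1 hz))
      · -- inert
        by_cases h3 : IsSquare (d : ZMod l)
        · exact qs_sq (t_SQ l d l2 hld h3)
        · have hdz : (d : ZMod l) ≠ 0 := by
            rw [Ne, ZMod.intCast_zmod_eq_zero_iff_dvd]; exact hld
          have h4 : IsSquare ((b * d : ℤ) : ZMod l) := by
            rw [Int.cast_mul, ← quadraticChar_one_iff_isSquare (mul_ne_zero hb0 hdz), map_mul,
              quadraticChar_neg_one_iff_not_isSquare.2 hb, quadraticChar_neg_one_iff_not_isSquare.2 h3]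
            norm_num
          obtain ⟨s, hs⟩ := t_SQ l (b * d) l2 (fun h => (hlP.dvd_or_dvd h).elim hlb hld) h4
          have hdK : (d : ℚ_[l]) ≠ 0 := by exact_mod_cast hd.ne_zero
          refine qs_sqb hdK ⟨s * (((∏ p ∈ S, p : ℕ) : ℤ) : ℚ_[l]), ?_⟩
          rw [Int.cast_mul] at hs
          rw [Int.cast_mul, Int.cast_pow]
          linear_combination ((((∏ p ∈ S, p : ℕ) : ℤ) : ℚ_[l]) ^ 2) * hs
    · have hlD : ¬ (l : ℤ) ∣ ((∏ p ∈ S, p : ℕ) : ℤ) := by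
        intro h1
        have h3 : l ∣ ∏ q ∈ S, q := Int.natCast_dvd_natCast.1 h1
        rw [hl.out.prime.dvd_finsetProd_iff] at h3
        obtain ⟨r, hr, hqr⟩ := h3
        exact hlS ((Nat.prime_dvd_prime_iff_eq hl.out (hS r hr)).1 hqr ▸ hr)
      refine hG _ _ _ l l2 (fun h => ?_) (fun h => ?_) hld
      · exact (hlP.dvd_or_dvd h).elim hlb fun h => hlD (hlP.dvd_of_dvd_pow h)
      · have e : (a * ((∏ p ∈ S, p : ℕ) : ℤ)) ^ 2 - 4 * (b * ((∏ p ∈ S, p : ℕ) : ℤ) ^ 2) =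
          (a ^ 2 - 4 * b) * ((∏ p ∈ S, p : ℕ) : ℤ) ^ 2 := by ring
        rw [e] at h
        exact (hlP.dvd_or_dvd h).elim hlc fun h => hlD (hlP.dvd_of_dvd_pow h)

end Pool.Agent.U263.GZE
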