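import Pool.Agent.U263.GZ.DE1

/-!
# Project GZ (helper79), part DSCE: the local images at `2` and at the real place
-/

set_option autoImplicit false
set_option linter.style.haveILetI false
set_option linter.unusedVariables false

open scoped Classical

namespace Pool.Agent.U263.GZE

open Pool.Agent.U115.GE (Qs ELS SelSet sel RtG lsol_of_qs qs_sq qs_sqb)
open Pool.Agent.U115.TP (LSol)
open Pool.Agent.U95.GZ (La qs_iff qs_mul qs_of_sq)
open Pool.Agent.U962.GZ (sq_two unit_of)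

theorem odd_sq8 {D : ℤ} (hD : D % 2 = 1) : D ^ 2 % 8 = 1 := by
  have h : D % 8 = 1 ∨ D % 8 = 3 ∨ D % 8 = 5 ∨ D % 8 = 7 := by omega
  rw [sq, Int.mul_emod]
  rcases h with h | h | h | h <;> rw [h] <;> norm_num

/-- `-1` is in the image at `2` for the first curve -/
theorem q2_neg_one [Fact (Nat.Prime 2)] {D : ℤ} (hD : D % 2 = 1) :
    Qs ℚ_[2] (-4 * D) (2 * D ^ 2) (-1) := by
  have h8 := odd_sq8 hD
  obtain ⟨t, ht⟩ := sq_two (a := -1 + -4 * D - 2 * D ^ 2) (by omega)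
  refine ⟨t, 1, 1, Or.inr one_ne_zero, ?_⟩
  rw [sq, ← ht]
  push_cast
  ring

theorem q2_no_neg_one [Fact (Nat.Prime 2)] {D : ℤ} (hD : D % 2 = 1)
    (h : LSol (8 * D) (8 * D ^ 2) (-1) 2) : False := by
  obtain ⟨w, e, N, h1, h2⟩ := h.mod16
  obtain ⟨k, hk⟩ : ∃ k, D = 2 * k + 1 := ⟨D / 2, by omega⟩
  have e1 : (((8 * D : ℤ)) : ZMod 16) = 8 := by
    rw [hk, show 8 * (2 * k + 1) = 16 * k + 8 by ring]
    push_cast
    rw [show (16 : ZMod 16) = 0 from rfl, zero_mul, zero_add]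
  have e2 : (((8 * D ^ 2 : ℤ)) : ZMod 16) = 8 := by
    rw [hk, show 8 * (2 * k + 1) ^ 2 = 16 * (2 * k ^ 2 + 2 * k) + 8 by ring]
    push_cast
    rw [show (16 : ZMod 16) = 0 from rfl, zero_mul, zero_add]
  rw [e1, e2] at h2
  clear e1 e2 hk hD h k
  revert w e N
  push_cast
  decide +revert

theorem q2_no_neg_two [Fact (Nat.Prime 2)] {D : ℤ} (hD : D % 2 = 1)
    (h : LSol (8 * D) (8 * D ^ 2) (-2) 2) : False := by
  obtain ⟨w, e, N, hwe, h⟩ := h
  have hP := PadicInt.prime_p (p := 2)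
  push_cast at h hP hwe
  have h2 : (2 : ℤ_[2]) ≠ 0 := two_ne_zero
  have a1 : N ^ 2 = 2 * (-(w ^ 4) + 4 * D * w ^ 2 * e ^ 2 - 2 * D ^ 2 * e ^ 4) := by
    apply mul_left_cancel₀ h2
    linear_combination -h
  obtain ⟨n, rfl⟩ := hP.dvd_of_dvd_pow ⟨_, a1⟩
  have a2 : w ^ 4 = 2 * (2 * D * w ^ 2 * e ^ 2 - D ^ 2 * e ^ 4 - n ^ 2) := by
    apply mul_left_cancel₀ h2
    linear_combination a1
  obtain ⟨u, rfl⟩ := hP.dvd_of_dvd_pow ⟨_, a2⟩
  have a3 : -n ^ 2 = 8 * u ^ 4 - 8 * D * u ^ 2 * e ^ 2 + D ^ 2 * e ^ 4 := by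
    apply mul_left_cancel₀ h2
    linear_combination -a2
  have he : IsUnit e := by
    apply unit_of
    intro h
    exact hwe ⟨Dvd.intro _ rfl, by exact_mod_cast h⟩
  let φ : ℤ_[2] →+* ZMod 8 := (PadicInt.toZModPow 3 : ℤ_[2] →+* ZMod (2 ^ 3))
  obtain ⟨v, hv⟩ := he.exists_right_inv
  have b1 : φ e * φ v = 1 := by rw [← map_mul, hv, map_one]
  have b2 := congrArg φ a3
  simp only [map_mul, map_add, map_sub, map_neg, map_pow, map_ofNat, map_intCast] at b2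
  have hD8 : ((D : ℤ) : ZMod 8) ^ 2 = 1 := by
    have h8 := odd_sq8 hD
    have h9 : ((D ^ 2 : ℤ) : ZMod 8) = ((1 : ℤ) : ZMod 8) := by
      rw [ZMod.intCast_eq_intCast_iff]
      exact h8
    push_cast at h9
    exact h9
  rw [hD8] at b2
  generalize φ e = E at b1 b2
  generalize φ v = V at b1
  generalize φ n = n' at b2
  generalize φ u = U at b2
  generalize ((D : ℤ) : ZMod 8) = D' at b2
  have key : ∀ E V n' : ZMod 8, E * V = 1 → -n' ^ 2 = E ^ 4 → False := by decide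
  apply key E V n' b1
  rw [b2, show (8 : ZMod 8) = 0 from rfl]
  ring

/-- the real place, first curve -/
theorem real_pos {D : ℤ} (hD : 0 < D) {d : ℤ} (hd : d ≠ 0) (h : Qs ℝ (-4 * D) (2 * D ^ 2) d) :
    0 < d := by
  obtain ⟨N, M, e, hne, h⟩ := h
  by_contra hneg
  have hd0 : (d : ℝ) < 0 := by
    have h1 : d < 0 := lt_of_le_of_ne (not_lt.1 hneg) hd
    exact_mod_cast h1
  have hDr : (0 : ℝ) < D := by exact_mod_cast hD
  push_cast at h
  have h2 : (2 * (D : ℝ) ^ 2) / d < 0 := div_neg_of_pos_of_neg (by positivity) hd0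
  have h3 : 0 ≤ (D : ℝ) * (M * e) ^ 2 := by positivity
  have h4 : (-4 * (D : ℝ)) * M ^ 2 * e ^ 2 = -4 * ((D : ℝ) * (M * e) ^ 2) := by ring
  rw [h4] at h
  have hM : M = 0 := by
    by_contra hM
    have h5 : 0 < M ^ 4 := by positivity
    have h6 : (d : ℝ) * M ^ 4 < 0 := mul_neg_of_neg_of_pos hd0 h5
    have h7 : (2 * (D : ℝ) ^ 2) / d * e ^ 4 ≤ 0 := mul_nonpos_of_nonpos_of_nonneg h2.le (by positivity)
    nlinarith [sq_nonneg N]
  have he : e = 0 := by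
    by_contra he
    have h5 : 0 < e ^ 4 := by positivity
    have h6 : (2 * (D : ℝ) ^ 2) / d * e ^ 4 < 0 := mul_neg_of_neg_of_pos h2 h5
    rw [hM] at h h3
    nlinarith [sq_nonneg N]
  exact hne.elim (fun h => h hM) (fun h => h he)

theorem real_sq {a b d : ℤ} (hd : 0 < d) : Qs ℝ a b d := by
  have h : (0 : ℝ) ≤ (d : ℝ) := by exact_mod_cast hd.le
  exact qs_sq ⟨Real.sqrt d, (Real.mul_self_sqrt h).symm⟩

/-- the real place, second curve -/
theorem real_all {D : ℤ} (hD : 0 < D) {d : ℤ} (hd : d ≠ 0) : Qs ℝ (8 * D) (8 * D ^ 2) d := by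
  rcases lt_or_gt_of_ne hd with h | h
  · have hdr : (d : ℝ) < 0 := by exact_mod_cast h
    have hDr : (0 : ℝ) < D := by exact_mod_cast hD
    have h2 : Real.sqrt 2 ^ 2 = 2 := Real.sq_sqrt (by norm_num)
    have h3 : 0 ≤ Real.sqrt 2 := Real.sqrt_nonneg 2
    have h4 : -4 + 2 * Real.sqrt 2 < 0 := by nlinarith
    have h5 : (D : ℝ) * (-4 + 2 * Real.sqrt 2) < 0 := mul_neg_of_pos_of_neg hDr h4
    rw [qs_iff hdr.ne]
    refine Or.inr (Or.inr ⟨(D : ℝ) * (-4 + 2 * Real.sqrt 2), 0, h5.ne, ?_, ?_⟩)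
    · push_cast
      linear_combination (-(D : ℝ) * (-4 + 2 * Real.sqrt 2) * ((D : ℝ) ^ 2 * 4)) * h2
    · have h6 : 0 ≤ (D : ℝ) * (-4 + 2 * Real.sqrt 2) * d := (mul_pos_of_neg_of_neg h5 hdr).le
      exact ⟨Real.sqrt ((D : ℝ) * (-4 + 2 * Real.sqrt 2) * d), (Real.mul_self_sqrt h6).symm⟩
  · exact real_sq h

end Pool.Agent.U263.GZE
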