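import Pool.Agent.U263.GZ.DE2

/-!
# Project GZ (helper79), part DSCE: counting
-/

set_option autoImplicit false
set_option linter.style.haveILetI false
set_option linter.unusedVariables false

open scoped Classical

namespace Pool.Agent.U263.GZE

open Finset hiding ext
open Pool.Agent.Y703.CQ (nr)
open Pool.Agent.U115.GE (Qs ELS SelSet sel RtG lsol_of_qs qs_sq qs_sqb rtG_iff)
open Pool.Agent.U79.GY (s4)
open Pool.Agent.U255.GY (ff dv uu xx eq_uu)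

/-- the set of the primes with `x q = 1` -/
noncomputable def TT (S : Finset ℕ) (x : ℕ → ZMod 2) : Finset ℕ := S.filter fun q => x q = 1

section

variable {P : ℕ → Prop} {S : Finset ℕ}

theorem TT_sub {x : ℕ → ZMod 2} : TT S x ⊆ S := Finset.filter_subset _ _

theorem z2' (a : ZMod 2) : a = 0 ∨ a = 1 := by
  revert a
  decide

theorem P_of_TT {x : ℕ → ZMod 2} (hx : ∀ p, ¬ (p ∈ S ∧ P p) → x p = 0) {q : ℕ} (hq : q ∈ TT S x) :
    P q := by
  by_contra h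
  have h1 := hx q fun h' => h h'.2
  rw [(Finset.mem_filter.1 hq).2] at h1
  exact one_ne_zero h1

/-- the prime factors are `2` -/
def Two (v : ℤ) : Prop := v ≠ 0 ∧ ∀ q : ℕ, q.Prime → (q : ℤ) ∣ v → q = 2

theorem dv_TT (hS : ∀ p ∈ S, p.Prime ∧ p ≠ 2) {T : Finset ℕ} (hT : T ⊆ S) (hTP : ∀ q ∈ T, P q)
    {v : ℤ} (hv : Two v) : dv P S (((∏ q ∈ T, q : ℕ) : ℤ) * v) = T := by
  ext p
  constructor
  · intro h
    obtain ⟨h1, h2, h3⟩ := Finset.mem_filter.1 h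
    have hp := hS p h1
    rcases (Nat.prime_iff_prime_int.1 hp.1).dvd_or_dvd h3 with h4 | h4
    · have h5 : p ∣ ∏ q ∈ T, q := Int.natCast_dvd_natCast.1 h4
      rw [hp.1.prime.dvd_finsetProd_iff] at h5
      obtain ⟨r, hr, hqr⟩ := h5
      rwa [(Nat.prime_dvd_prime_iff_eq hp.1 (hS r (hT hr)).1).1 hqr]
    · exact absurd (hv.2 p hp.1 h4) hp.2
  · intro h
    refine Finset.mem_filter.2 ⟨hT h, hTP p h, ?_⟩
    exact (Int.natCast_dvd_natCast.2 (Finset.dvd_prod_of_mem _ h)).mul_right _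

theorem uu_TT (hS : ∀ p ∈ S, p.Prime ∧ p ≠ 2) {T : Finset ℕ} (hT : T ⊆ S) (hTP : ∀ q ∈ T, P q)
    {v : ℤ} (hv : Two v) : uu P S (((∏ q ∈ T, q : ℕ) : ℤ) * v) = v := by
  unfold uu
  rw [dv_TT hS hT hTP hv]
  apply Int.mul_ediv_cancel_left
  have : (∏ q ∈ T, q) ≠ 0 := Finset.prod_ne_zero_iff.2 fun q hq => (hS q (hT hq)).1.ne_zero
  exact_mod_cast this

theorem xx_TT {x : ℕ → ZMod 2} (hx : ∀ p, ¬ (p ∈ S ∧ P p) → x p = 0) {d : ℤ}
    (hd : dv P S d = TT S x) : xx P S d = x := by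
  funext p
  unfold xx
  rw [hd]
  by_cases h : p ∈ TT S x
  · rw [if_pos h, (Finset.mem_filter.1 h).2]
  · rw [if_neg h]
    rcases z2' (x p) with h1 | h1
    · exact h1.symm
    · exfalso
      by_cases h2 : p ∈ S ∧ P p
      · exact h (Finset.mem_filter.2 ⟨h2.1, h1⟩)
      · rw [hx p h2] at h1
        exact zero_ne_one h1

theorem TT_xx {d : ℤ} : TT S (xx P S d) = dv P S d := by
  ext p
  unfold TT
  rw [Finset.mem_filter]
  unfold xx
  constructor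
  · rintro ⟨h1, h2⟩
    by_contra h3
    rw [if_neg h3] at h2
    exact zero_ne_one h2
  · intro h
    exact ⟨(Finset.mem_filter.1 h).1, if_pos h⟩

theorem sqf_TT (hS : ∀ p ∈ S, p.Prime ∧ p ≠ 2) {T : Finset ℕ} (hT : T ⊆ S) {v : ℤ}
    (hv : Squarefree v) (hv2 : Two v) : Squarefree (((∏ q ∈ T, q : ℕ) : ℤ) * v) := by
  rw [squarefree_mul_iff]
  refine ⟨?_, Pool.Agent.U255.GY.sqf_prod fun p hp => (hS p (hT hp)).1, hv⟩
  refine IsCoprime.isRelPrime ?_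
  rw [Int.isCoprime_iff_nat_coprime, Int.natAbs_natCast]
  refine Nat.Coprime.prod_left fun q hq => ?_
  rw [(hS q (hT hq)).1.coprime_iff_not_dvd]
  intro h
  exact (hS q (hT hq)).2 (hv2.2 q (hS q (hT hq)).1 (Int.natCast_dvd.2 h))

theorem two_u {u σ : ℤ} (hu : u = 1 ∨ u = 2) (hσ : σ = 1 ∨ σ = -1) :
    Two (u * σ) ∧ Squarefree (u * σ) := by
  have h2 : ∀ q : ℕ, q.Prime → (q : ℤ) ∣ 2 → q = 2 := by
    intro q hq h
    have : q ∣ 2 := by exact_mod_cast h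
    exact (Nat.prime_dvd_prime_iff_eq hq Nat.prime_two).1 this
  have h1 : ∀ q : ℕ, q.Prime → (q : ℤ) ∣ 1 → q = 2 := by
    intro q hq h
    have : q ∣ 1 := by exact_mod_cast h
    exact absurd (Nat.dvd_one.1 this) hq.ne_one
  rcases hu with rfl | rfl <;> rcases hσ with rfl | rfl
  · exact ⟨⟨by norm_num, fun q hq h => h1 q hq (by simpa using h)⟩, by norm_num⟩
  · exact ⟨⟨by norm_num, fun q hq h => h1 q hq (by simpa using h)⟩, by
      rw [one_mul, ← Int.squarefree_natAbs]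
      norm_num⟩
  · exact ⟨⟨by norm_num, fun q hq h => h2 q hq (by simpa using h)⟩, by
      rw [mul_one]
      exact Int.prime_two.squarefree⟩
  · exact ⟨⟨by norm_num, fun q hq h => h2 q hq (by simpa using h)⟩, by
      rw [← Int.squarefree_natAbs]
      exact Nat.prime_two.squarefree⟩

/-- the number of the elements -/
theorem count (hS : ∀ p ∈ S, p.Prime ∧ p ≠ 2) {K : Set (ℕ → ZMod 2)}
    (hK : ∀ x ∈ K, ∀ p, ¬ (p ∈ S ∧ P p) → x p = 0) (σ : (ℕ → ZMod 2) → ℤ)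
    (hσ : ∀ x, σ x = 1 ∨ σ x = -1) :
    {d : ℤ | ∃ x ∈ K, ∃ u : ℤ, (u = 1 ∨ u = 2) ∧
      d = ((∏ q ∈ TT S x, q : ℕ) : ℤ) * (u * σ x)}.ncard = 2 * K.ncard := by
  have h1 : {d : ℤ | ∃ x ∈ K, ∃ u : ℤ, (u = 1 ∨ u = 2) ∧
      d = ((∏ q ∈ TT S x, q : ℕ) : ℤ) * (u * σ x)} =
      (fun t : (ℕ → ZMod 2) × ℤ => ((∏ q ∈ TT S t.1, q : ℕ) : ℤ) * (t.2 * σ t.1)) ''
        (K ×ˢ ({1, 2} : Set ℤ)) := by
    ext d
    constructor
    · rintro ⟨x, hx, u, hu, rfl⟩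
      exact ⟨(x, u), ⟨hx, hu⟩, rfl⟩
    · rintro ⟨⟨x, u⟩, ⟨hx, hu⟩, rfl⟩
      exact ⟨x, hx, u, hu, rfl⟩
  rw [h1, Set.ncard_image_of_injOn, Set.ncard_prod, Set.ncard_pair (by norm_num), mul_comm]
  rintro ⟨x, u⟩ ⟨hx, hu⟩ ⟨y, v⟩ ⟨hy, hv⟩ he
  simp only at he hx hy
  have hu' : u = 1 ∨ u = 2 := hu
  have hv' : v = 1 ∨ v = 2 := hv
  have e1 := dv_TT (P := P) hS (TT_sub (S := S) (x := x)) (fun q hq => P_of_TT (hK x hx) hq)
    (two_u hu' (hσ x)).1
  have e2 := dv_TT (P := P) hS (TT_sub (S := S) (x := y)) (fun q hq => P_of_TT (hK y hy) hq)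
    (two_u hv' (hσ y)).1
  have e3 := uu_TT (P := P) hS (TT_sub (S := S) (x := x)) (fun q hq => P_of_TT (hK x hx) hq)
    (two_u hu' (hσ x)).1
  have e4 := uu_TT (P := P) hS (TT_sub (S := S) (x := y)) (fun q hq => P_of_TT (hK y hy) hq)
    (two_u hv' (hσ y)).1
  have hxy : x = y := by
    rw [← xx_TT (hK x hx) e1, ← xx_TT (hK y hy) e2, he]
  subst hxy
  rw [he] at e3
  have h5 : u * σ x = v * σ x := e3.symm.trans e4
  have h6 : σ x ≠ 0 := by
    rcases hσ x with h | h <;> rw [h] <;> norm_num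
  rw [mul_right_cancel₀ h6 h5]

end

/-! ### the transposed matrix -/

theorem card_ker {I : Type} [Fintype I] [DecidableEq I] (M : Matrix I I (ZMod 2)) :
    Nat.card {v : I → ZMod 2 // M.mulVec v = 0} = 2 ^ (Fintype.card I - M.rank) := by
  have h1 : Nat.card {v : I → ZMod 2 // M.mulVec v = 0} =
      Nat.card (LinearMap.ker M.mulVecLin) := by
    refine Nat.card_congr (Equiv.subtypeEquivRight fun v => ?_)
    rw [LinearMap.mem_ker, Matrix.mulVecLin_apply]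
  rw [h1, Module.natCard_eq_pow_finrank (K := ZMod 2), Nat.card_zmod]
  congr 1
  have h2 := LinearMap.finrank_range_add_finrank_ker M.mulVecLin
  rw [Module.finrank_fintype_fun_eq_card] at h2
  have h3 : M.rank = Module.finrank (ZMod 2) (LinearMap.range M.mulVecLin) := rfl
  rw [h3]
  omega

theorem ker_set (I : Finset ℕ) (M : ℕ → ℕ → ZMod 2) :
    {x : ℕ → ZMod 2 | (∀ p, p ∉ I → x p = 0) ∧ ∀ p ∈ I, ∑ q ∈ I, M p q * x q = 0}.ncard =
      Nat.card {v : I → ZMod 2 // (Matrix.of fun i j : I => M i j).mulVec v = 0} := by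
  rw [← Nat.card_coe_set_eq]
  refine Nat.card_congr ⟨fun x => ⟨fun i => x.1 i, ?_⟩,
    fun v => ⟨fun p => if h : p ∈ I then v.1 ⟨p, h⟩ else 0, fun p hp => dif_neg hp, fun p hp => ?_⟩,
    fun x => ?_, fun v => ?_⟩
  · funext i
    have h := x.2.2 i i.2
    rw [← Finset.sum_coe_sort I] at h
    exact h
  · have h := congrFun v.2 ⟨p, hp⟩
    rw [← Finset.sum_coe_sort I]
    refine Eq.trans (Finset.sum_congr rfl fun q _ => ?_) h
    show M p q * (if h : (q : ℕ) ∈ I then v.1 ⟨q, h⟩ else 0) = M p q * v.1 q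
    rw [dif_pos q.2]
  · apply Subtype.ext
    funext p
    show (if h : p ∈ I then x.1 p else 0) = x.1 p
    split_ifs with h
    · rfl
    · exact (x.2.1 p h).symm
  · apply Subtype.ext
    funext i
    exact dif_pos i.2

theorem ker_tr (I : Finset ℕ) (M N : ℕ → ℕ → ZMod 2) (h : ∀ p ∈ I, ∀ q ∈ I, N p q = M q p) :
    {x : ℕ → ZMod 2 | (∀ p, p ∉ I → x p = 0) ∧ ∀ p ∈ I, ∑ q ∈ I, N p q * x q = 0}.ncard =
    {x : ℕ → ZMod 2 | (∀ p, p ∉ I → x p = 0) ∧ ∀ p ∈ I, ∑ q ∈ I, M p q * x q = 0}.ncard := by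
  rw [ker_set, ker_set, card_ker, card_ker]
  have h1 : (Matrix.of fun i j : I => N i j) = (Matrix.of fun i j : I => M i j).transpose := by
    ext i j
    exact h i i.2 j j.2
  rw [h1, Matrix.rank_transpose]

end Pool.Agent.U263.GZE
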