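import Pool.Agent.U79.GZ.Stm3
import Pool.Agent.U263.GZ.DE3

/-!
# Project GZ (helper79), package DSCE: the exact number of the elements of the Selmer groups
-/

set_option autoImplicit false
set_option linter.style.haveILetI false
set_option linter.unusedVariables false

open scoped Classical

namespace Pool.Agent.U263.GZE

open Finset hiding ext
open Pool.Agent.Y703.CQ (nr)
open Pool.Agent.U115.GE (Qs ELS SelSet sel RtG lsol_of_qs qs_sq qs_sqb rtG_iff S_GOOD)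
open Pool.Agent.U115.TP (LSol)
open Pool.Agent.U79.GY (Cfg Ok Hc Sp In Mod cfg s4 S_CFG)
open Pool.Agent.U79.GZ (Sol gm Kn Gn S_DSCE)
open Pool.Agent.U255.GY (ff dv uu xx Hyp eq_uu uu_dvd uu_sqf dv_not xx_zero row ne_of_mem nz nz_mul nz_prod nz_nat)
open Pool.Agent.U95.GZ (La qs_iff qs_mul qs_of_sq)
open Pool.Agent.U962.GZ (sq_two of_two)

/-! ### symbols -/

theorem s4_nz {p : ℕ} (hp : p.Prime) (p2 : p ≠ 2) : nz p (-1) = s4 p := by
  haveI : Fact p.Prime := ⟨hp⟩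
  unfold nz s4
  rw [Int.cast_neg, Int.cast_one]
  by_cases h : p % 4 = 3
  · rw [if_pos h, if_neg]
    rw [ZMod.exists_sq_eq_neg_one_iff]
    exact fun h' => h' h
  · rw [if_neg h, if_pos]
    rw [ZMod.exists_sq_eq_neg_one_iff]
    exact h

theorem recip {p q : ℕ} (hp : p.Prime) (hq : q.Prime) (p2 : p ≠ 2) (q2 : q ≠ 2) (hpq : p ≠ q) :
    nr p q + s4 p * s4 q = nr q p := by
  haveI : Fact p.Prime := ⟨hp⟩
  haveI : Fact q.Prime := ⟨hq⟩
  have hp4 : p % 4 = 1 ∨ p % 4 = 3 := by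
    have := hp.eq_two_or_odd.resolve_left p2
    omega
  have hq4 : q % 4 = 1 ∨ q % 4 = 3 := by
    have := hq.eq_two_or_odd.resolve_left q2
    omega
  unfold nr s4
  rcases hp4 with h1 | h1
  · have h2 := ZMod.exists_sq_eq_prime_iff_of_mod_four_eq_one h1 q2
    rw [if_neg (show ¬ p % 4 = 3 by omega), zero_mul, add_zero]
    by_cases h : IsSquare (q : ZMod p)
    · rw [if_pos h, if_pos (h2.1 h)]
    · rw [if_neg h, if_neg fun h' => h (h2.2 h')]
  · rcases hq4 with h3 | h3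
    · have h2 := ZMod.exists_sq_eq_prime_iff_of_mod_four_eq_one h3 p2
      rw [if_neg (show ¬ q % 4 = 3 by omega), mul_zero, add_zero]
      by_cases h : IsSquare (q : ZMod p)
      · rw [if_pos h, if_pos (h2.2 h)]
      · rw [if_neg h, if_neg fun h' => h (h2.1 h')]
    · have h2 := ZMod.exists_sq_eq_prime_iff_of_mod_four_eq_three h1 h3 hpq
      rw [if_pos h1, if_pos h3]
      by_cases h : IsSquare (q : ZMod p)
      · rw [if_pos h, if_neg (h2.1 h)]
        decide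
      · have h4 : IsSquare (p : ZMod q) := by
          by_contra h5
          exact h (h2.2 h5)
        rw [if_neg h, if_pos h4]
        decide

/-- the corrections of the two descents -/
theorem ff_dual {p : ℕ} (hp : p.Prime) (p2 : p ≠ 2) (h2 : IsSquare ((2 : ℤ) : ZMod p)) :
    ff 8 8 p = ff (-4) 2 p + s4 p := by
  haveI : Fact p.Prime := ⟨hp⟩
  have n2 : (2 : ZMod p) ≠ 0 := by
    exact_mod_cast Pool.Agent.Y687.prime_cast_ne hp 2 Nat.prime_two p2
  obtain ⟨τ, hτ⟩ := h2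
  push_cast at hτ
  have hτ0 : τ ≠ 0 := by
    rintro rfl
    exact n2 (by rw [hτ]; ring)
  have hb1 : IsSquare ((2 : ℤ) : ZMod p) := ⟨τ, by push_cast; exact hτ⟩
  have hb8 : IsSquare ((8 : ℤ) : ZMod p) := ⟨2 * τ, by push_cast; linear_combination 4 * hτ⟩
  have hb10 : ((2 : ℤ) : ZMod p) ≠ 0 := by push_cast; exact n2
  have hb80 : ((8 : ℤ) : ZMod p) ≠ 0 := by
    push_cast
    rw [show (8 : ZMod p) = 2 ^ 3 by norm_num]
    exact pow_ne_zero 3 n2
  have h1 : (((1 : ℕ)) : ZMod p) ≠ 0 := by push_cast; exact one_ne_zero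
  have r1 : RtG (-4) 2 p 1 ↔ ¬ IsSquare (2 + τ) := rtG_iff hb1 hb10 h1 (by
    push_cast
    linear_combination (-1 : ZMod p) * hτ)
  have r2 : RtG 8 8 p 1 ↔ ¬ IsSquare (-4 - 2 * τ) := rtG_iff hb8 hb80 h1 (by
    push_cast
    linear_combination (-4 : ZMod p) * hτ)
  have hρ0 : 2 + τ ≠ 0 := by
    intro h0
    have h3 : (2 : ZMod p) = 0 := by
      have : τ = -2 := by linear_combination h0
      rw [this] at hτ
      linear_combination -hτ
    exact n2 h3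
  have e1 : (-4 - 2 * τ : ZMod p) = -1 * (2 + τ) * (τ * τ) := by
    linear_combination (-(2 + τ)) * hτ
  have e2 : IsSquare (-4 - 2 * τ : ZMod p) ↔ IsSquare (-1 * (2 + τ) : ZMod p) := by
    rw [e1]
    constructor
    · rintro ⟨s, hs⟩
      refine ⟨s / τ, ?_⟩
      rw [div_mul_div_comm, eq_div_iff (mul_ne_zero hτ0 hτ0), ← hs]
    · rintro ⟨s, hs⟩
      exact ⟨s * τ, by rw [hs]; ring⟩
  have hm1 : (-1 : ZMod p) ≠ 0 := neg_ne_zero.2 one_ne_zero
  have e3 : IsSquare (-1 * (2 + τ) : ZMod p) ↔ (IsSquare (-1 : ZMod p) ↔ IsSquare (2 + τ)) := by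
    have q1 := quadraticChar_one_iff_isSquare hm1
    have q2 := quadraticChar_one_iff_isSquare hρ0
    have q3 := quadraticChar_one_iff_isSquare (mul_ne_zero hm1 hρ0)
    rw [← q1, ← q2, ← q3, map_mul]
    rcases quadraticChar_dichotomy hm1 with a | a <;>
      rcases quadraticChar_dichotomy hρ0 with b | b <;> rw [a, b] <;> norm_num
  have e4 : IsSquare (-1 : ZMod p) ↔ p % 4 ≠ 3 := ZMod.exists_sq_eq_neg_one_iff
  unfold ff s4
  by_cases h5 : p % 4 = 3
  · have e5 : RtG 8 8 p 1 ↔ ¬ RtG (-4) 2 p 1 := by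
      rw [r1, r2, e2, e3, e4]
      tauto
    rw [if_pos h5]
    by_cases h6 : RtG (-4) 2 p 1
    · rw [if_pos h6, if_neg (fun h => e5.1 h h6)]
      decide
    · rw [if_neg h6, if_pos (e5.2 h6)]
      decide
  · have e5 : RtG 8 8 p 1 ↔ RtG (-4) 2 p 1 := by
      rw [r1, r2, e2, e3, e4]
      tauto
    rw [if_neg h5, add_zero]
    by_cases h6 : RtG (-4) 2 p 1
    · rw [if_pos h6, if_pos (e5.2 h6)]
    · rw [if_neg h6, if_neg fun h => h6 (e5.1 h)]

/-- the residue of a product of split primes -/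
theorem prod8 {T : Finset ℕ} (hT : ∀ q ∈ T, q % 8 = 1 ∨ q % 8 = 7) :
    (∏ q ∈ T, q) % 8 = if ∑ q ∈ T, s4 q = 0 then 1 else 7 := by
  induction T using Finset.induction_on with
  | empty => simp
  | insert a s ha ih =>
    have ih' := ih fun q hq => hT q (Finset.mem_insert_of_mem hq)
    rw [Finset.prod_insert ha, Finset.sum_insert ha, Nat.mul_mod, ih']
    rcases hT a (Finset.mem_insert_self _ _) with h | h
    · have h4 : s4 a = 0 := if_neg (by omega)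
      rw [h, h4, zero_add]
      split_ifs <;> norm_num
    · have h4 : s4 a = 1 := if_pos (by omega)
      rw [h, h4]
      rcases z2' (∑ q ∈ s, s4 q) with h5 | h5 <;> rw [h5]
      · rw [if_pos rfl, if_neg (by decide)]
      · rw [if_neg (by decide), if_pos (by decide)]

/-- the sign -/
noncomputable def sgn (S : Finset ℕ) (x : ℕ → ZMod 2) : ℤ := if ∑ q ∈ S, s4 q * x q = 0 then 1 else -1

theorem sgn_pm (S : Finset ℕ) (x : ℕ → ZMod 2) : sgn S x = 1 ∨ sgn S x = -1 := by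
  unfold sgn
  split_ifs
  · exact Or.inl rfl
  · exact Or.inr rfl

theorem sum_s4 {S : Finset ℕ} {x : ℕ → ZMod 2} : ∑ q ∈ S, s4 q * x q = ∑ q ∈ TT S x, s4 q := by
  unfold TT
  rw [Finset.sum_filter]
  refine Finset.sum_congr rfl fun q _ => ?_
  rcases z2' (x q) with h | h
  · rw [h, mul_zero, if_neg (by decide)]
  · rw [h, mul_one, if_pos rfl]

theorem sgn_prod {S : Finset ℕ} {x : ℕ → ZMod 2} (hT : ∀ q ∈ TT S x, q % 8 = 1 ∨ q % 8 = 7) :
    (sgn S x * ((∏ q ∈ TT S x, q : ℕ) : ℤ)) % 8 = 1 := by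
  have h := prod8 hT
  unfold sgn
  rw [sum_s4]
  split_ifs at h ⊢ with h1 <;> omega

theorem nz_sgn {S : Finset ℕ} {x : ℕ → ZMod 2} {p : ℕ} (hp : p.Prime) (p2 : p ≠ 2) :
    nz p (sgn S x) = s4 p * ∑ q ∈ S, s4 q * x q := by
  unfold sgn
  rcases z2' (∑ q ∈ S, s4 q * x q) with h | h <;> rw [h]
  · rw [if_pos rfl, mul_zero]
    unfold nz
    rw [if_pos]
    exact ⟨1, by norm_num⟩
  · rw [if_neg (by decide), mul_one, s4_nz hp p2]

/-! ### the Selmer groups -/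

section

variable {D : ℕ}

/-- the kernel in terms of the matrix with the rows of the first descent -/
theorem K_eq {P : ℕ → Prop} {S : Finset ℕ} (f : ℕ → ZMod 2) (A : (ℕ → ZMod 2) → ℕ → ZMod 2)
    (B : ℕ → ℕ → ZMod 2) (hA : ∀ x p, A x p = ∑ q ∈ S.filter P, B p q * x q) :
    {x : ℕ → ZMod 2 | (∀ p, ¬ (p ∈ S ∧ P p) → x p = 0) ∧ ∀ p ∈ S, P p →
      ∑ q ∈ S, nr p q * (x q + x p) + f p * x p = A x p} =
    {x : ℕ → ZMod 2 | (∀ p, p ∉ S.filter P → x p = 0) ∧ ∀ p ∈ S.filter P, ∑ q ∈ S.filter P,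
      (nr p q + B p q + if p = q then ∑ r ∈ S, nr p r + f p else 0) * x q = 0} := by
  ext x
  have h1 : (∀ p, ¬ (p ∈ S ∧ P p) → x p = 0) ↔ ∀ p, p ∉ S.filter P → x p = 0 := by
    refine forall_congr' fun p => ?_
    rw [Finset.mem_filter]
  constructor
  · rintro ⟨h2, h3⟩
    refine ⟨h1.1 h2, fun p hp => ?_⟩
    obtain ⟨hpS, hpP⟩ := Finset.mem_filter.1 hp
    have h4 := h3 p hpS hpP
    rw [hA] at h4
    have h5 : ∑ q ∈ S.filter P, nr p q * x q = ∑ q ∈ S, nr p q * x q :=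
      Finset.sum_subset (Finset.filter_subset _ _) fun q _ hq => by
        rw [h1.1 h2 q hq, mul_zero]
    simp only [add_mul, ite_mul, zero_mul, mul_add, Finset.sum_add_distrib] at h4 ⊢
    rw [Finset.sum_ite_eq (S.filter P) p, if_pos hp, h5]
    rw [← Finset.sum_mul] at h4
    generalize ∑ q ∈ S, nr p q * x q = a1 at h4 ⊢
    generalize (∑ q ∈ S, nr p q) * x p = a2 at h4 ⊢
    generalize f p * x p = a3 at h4 ⊢
    generalize ∑ q ∈ S.filter P, B p q * x q = a4 at h4 ⊢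
    revert a1 a2 a3 a4
    decide
  · rintro ⟨h2, h3⟩
    refine ⟨h1.2 h2, fun p hpS hpP => ?_⟩
    have hp : p ∈ S.filter P := Finset.mem_filter.2 ⟨hpS, hpP⟩
    have h4 := h3 p hp
    rw [hA]
    have h5 : ∑ q ∈ S.filter P, nr p q * x q = ∑ q ∈ S, nr p q * x q :=
      Finset.sum_subset (Finset.filter_subset _ _) fun q _ hq => by
        rw [h2 q hq, mul_zero]
    simp only [add_mul, ite_mul, zero_mul, mul_add, Finset.sum_add_distrib] at h4 ⊢
    rw [Finset.sum_ite_eq (S.filter P) p, if_pos hp, h5] at h4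
    rw [← Finset.sum_mul]
    generalize ∑ q ∈ S, nr p q * x q = a1 at h4 ⊢
    generalize (∑ q ∈ S, nr p q) * x p = a2 at h4 ⊢
    generalize f p * x p = a3 at h4 ⊢
    generalize ∑ q ∈ S.filter P, B p q * x q = a4 at h4 ⊢
    revert a1 a2 a3 a4
    decide

end

/-! ### the local conditions at `2` -/

theorem q2a [Fact (Nat.Prime 2)] {D n : ℤ} (hD : D % 2 = 1) (hn : n % 8 = 1 ∨ n % 8 = 7) :
    Qs ℚ_[2] (-4 * D) (2 * D ^ 2) n := by
  have hD0 : D ≠ 0 := by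
    rintro rfl
    norm_num at hD
  rcases hn with h | h
  · exact qs_sq (sq_two h)
  · have hn0 : n ≠ 0 := by
      rintro rfl
      norm_num at h
    have h1 := qs_mul (K := ℚ_[2]) (a := -4 * D) (b := 2 * D ^ 2) (d := -1) (d' := -n)
      (by exact_mod_cast mul_ne_zero two_ne_zero (pow_ne_zero 2 hD0)) (by norm_num)
      (by exact_mod_cast neg_ne_zero.2 hn0) (q2_neg_one hD) (qs_sq (sq_two (by omega)))
    rwa [show (-1 : ℤ) * -n = n by ring] at h1

theorem q2b [Fact (Nat.Prime 2)] (D : ℤ) : Qs ℚ_[2] (-4 * D) (2 * D ^ 2) 2 :=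
  qs_sqb (by norm_num) ⟨2 * D, by push_cast; ring⟩

theorem q2c [Fact (Nat.Prime 2)] (D : ℤ) : Qs ℚ_[2] (8 * D) (8 * D ^ 2) 2 :=
  qs_sqb (by norm_num) ⟨4 * D, by push_cast; ring⟩

/-! ### the sets -/

section

variable {P : ℕ → Prop} {S : Finset ℕ} {D : ℕ}

theorem nz_u {p : ℕ} (h2 : IsSquare ((2 : ℤ) : ZMod p)) {u : ℤ} (hu : u = 1 ∨ u = 2) :
    nz p u = 0 := by
  rw [nz_zero_iff]
  rcases hu with rfl | rfl
  · exact ⟨1, by norm_num⟩
  · exact h2

theorem u_ne {p : ℕ} (hp : p.Prime) (p2 : p ≠ 2) {u : ℤ} (hu : u = 1 ∨ u = 2) :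
    (u : ZMod p) ≠ 0 := by
  haveI : Fact p.Prime := ⟨hp⟩
  rcases hu with rfl | rfl
  · rw [Int.cast_one]
    exact one_ne_zero
  · exact_mod_cast Pool.Agent.Y687.prime_cast_ne hp 2 Nat.prime_two p2

theorem pm_ne {p : ℕ} (hp : p.Prime) {σ : ℤ} (hσ : σ = 1 ∨ σ = -1) : (σ : ZMod p) ≠ 0 := by
  haveI : Fact p.Prime := ⟨hp⟩
  rcases hσ with rfl | rfl
  · rw [Int.cast_one]
    exact one_ne_zero
  · rw [Int.cast_neg, Int.cast_one]
    exact neg_ne_zero.2 one_ne_zero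

theorem sel_one (hD : D % 2 = 1) (hprod : ∏ p ∈ S, p = D) (hS : ∀ p ∈ S, p.Prime ∧ p ≠ 2)
    (hP2 : ∀ p ∈ S, (P p ↔ IsSquare ((2 : ℤ) : ZMod p)))
    (hP8 : ∀ p ∈ S, P p → p % 8 = 1 ∨ p % 8 = 7) (hM : Mod 2 ((-4) ^ 2 - 4 * 2) 8)
    (hyp : Hyp (-4) 2 8 P S) :
    SelSet (-4 * (D : ℤ)) (2 * (D : ℤ) ^ 2) = {d : ℤ | ∃ x ∈ {x : ℕ → ZMod 2 |
      (∀ p, ¬ (p ∈ S ∧ P p) → x p = 0) ∧ ∀ p ∈ S, P p →
      ∑ q ∈ S, nr p q * (x q + x p) + ff (-4) 2 p * x p = 0}, ∃ u : ℤ, (u = 1 ∨ u = 2) ∧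
      d = ((∏ q ∈ TT S x, q : ℕ) : ℤ) * (u * 1)} := by
  have hS' : ∀ p ∈ S, p.Prime := fun p hp => (hS p hp).1
  have hDz : ((D : ℤ)) % 2 = 1 := by omega
  have hD0 : 0 < D := by omega
  have hDp : (0 : ℤ) < D := by exact_mod_cast hD0
  have hM2 : ∀ l : ℕ, l.Prime → l ∣ 8 → l = 2 := by
    intro l hl h
    have h2 : l ∣ 2 ^ 3 := h
    exact (Nat.prime_dvd_prime_iff_eq hl Nat.prime_two).1 (hl.dvd_of_dvd_pow h2)
  have hprodz : ((∏ p ∈ S, p : ℕ) : ℤ) = (D : ℤ) := by exact_mod_cast hprod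
  ext d
  constructor
  · rintro ⟨hsq, hR, hp⟩
    have hL : ∀ (l : ℕ) [Fact l.Prime], LSol (-4 * ((∏ p ∈ S, p : ℕ) : ℤ))
        (2 * ((∏ p ∈ S, p : ℕ) : ℤ) ^ 2) d l := by
      intro l _
      rw [hprodz]
      exact lsol_of_qs hsq (hp l)
    have hu := eq_uu P S hS' d
    have hv := of_two (uu_sqf (P := P) hS' hsq) (fun l hl hlv => by
      have h1 := uu_dvd hyp hsq hL hl hlv
      have h2 : l ∣ 2 := by exact_mod_cast h1
      exact (Nat.prime_dvd_prime_iff_eq hl Nat.prime_two).1 h2)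
    have hd := real_pos hDp hsq.ne_zero hR
    have hTpos : (0 : ℤ) < ((∏ q ∈ dv P S d, q : ℕ) : ℤ) := by
      exact_mod_cast Finset.prod_pos fun q hq => (hS' q (Finset.mem_filter.1 hq).1).pos
    have hvpos : 0 < uu P S d := by
      rw [hu] at hd
      exact (mul_pos_iff_of_pos_left hTpos).1 hd
    have hv' : uu P S d = 1 ∨ uu P S d = 2 := by
      rcases hv with h | h | h | h
      · exact Or.inl h
      · omega
      · exact Or.inr h
      · omega
    refine ⟨xx P S d, ⟨fun p hp => xx_zero hp, fun p hpS hpP => ?_⟩, uu P S d, hv', ?_⟩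
    · rw [row hM hyp hsq hL hpS hpP]
      exact nz_u ((hP2 p hpS).1 hpP) hv'
    · rw [TT_xx, mul_one]
      exact hu
  · rintro ⟨x, ⟨hx, hrow⟩, u, hu, rfl⟩
    have h2u := two_u hu (Or.inl rfl : (1 : ℤ) = 1 ∨ (1 : ℤ) = -1)
    have hTP : ∀ q ∈ TT S x, P q := fun q hq => P_of_TT hx hq
    have hdv := dv_TT (P := P) hS (TT_sub (S := S) (x := x)) hTP h2u.1
    have huu := uu_TT (P := P) hS (TT_sub (S := S) (x := x)) hTP h2u.1
    have hxx := xx_TT hx hdv
    have h8 := prod8 (T := TT S x) fun q hq => hP8 q (TT_sub hq) (hTP q hq)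
    have hn : ((∏ q ∈ TT S x, q : ℕ) : ℤ) % 8 = 1 ∨ ((∏ q ∈ TT S x, q : ℕ) : ℤ) % 8 = 7 := by
      split_ifs at h8
      · left; omega
      · right; omega
    have hTpos : (0 : ℤ) < ((∏ q ∈ TT S x, q : ℕ) : ℤ) := by
      exact_mod_cast Finset.prod_pos fun q hq => (hS' q (TT_sub hq)).pos
    have hupos : 0 < u * 1 := by rcases hu with rfl | rfl <;> norm_num
    have hc := crit (P := P) (S := S) Pool.Agent.U739.GE.t_GOOD hM hM2 hyp
      (d := ((∏ q ∈ TT S x, q : ℕ) : ℤ) * (u * 1))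
      (sqf_TT hS TT_sub h2u.2 h2u.1) (by rw [huu]; exact h2u.1.2) (by
        intro p hp hPp
        rw [hxx, huu, hrow p hp hPp, mul_one]
        exact (nz_u ((hP2 p hp).1 hPp) hu).symm) (real_sq (mul_pos hTpos hupos)) (by
        intro _
        rw [hprodz]
        rcases hu with rfl | rfl
        · rw [mul_one, mul_one]
          exact q2a hDz hn
        · rw [mul_one]
          exact qs_mul (by exact_mod_cast mul_ne_zero two_ne_zero (pow_ne_zero 2 hDp.ne'))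
            (by exact_mod_cast hTpos.ne') (by norm_num) (q2a hDz hn) (q2b _))
    rw [hprodz] at hc
    exact hc

theorem sel_two (hD : D % 2 = 1) (hprod : ∏ p ∈ S, p = D) (hS : ∀ p ∈ S, p.Prime ∧ p ≠ 2)
    (hP2 : ∀ p ∈ S, (P p ↔ IsSquare ((2 : ℤ) : ZMod p)))
    (hP8 : ∀ p ∈ S, P p → p % 8 = 1 ∨ p % 8 = 7) (hM : Mod 8 (8 ^ 2 - 4 * 8) 32)
    (hyp : Hyp 8 8 32 P S) :
    SelSet (8 * (D : ℤ)) (8 * (D : ℤ) ^ 2) = {d : ℤ | ∃ x ∈ {x : ℕ → ZMod 2 |
      (∀ p, ¬ (p ∈ S ∧ P p) → x p = 0) ∧ ∀ p ∈ S, P p →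
      ∑ q ∈ S, nr p q * (x q + x p) + ff 8 8 p * x p =
        ∑ q ∈ S.filter P, (s4 p * s4 q) * x q}, ∃ u : ℤ, (u = 1 ∨ u = 2) ∧
      d = ((∏ q ∈ TT S x, q : ℕ) : ℤ) * (u * sgn S x)} := by
  have hS' : ∀ p ∈ S, p.Prime := fun p hp => (hS p hp).1
  have hDz : ((D : ℤ)) % 2 = 1 := by omega
  have hD0 : 0 < D := by omega
  have hDp : (0 : ℤ) < D := by exact_mod_cast hD0
  have hM2 : ∀ l : ℕ, l.Prime → l ∣ 32 → l = 2 := by
    intro l hl h
    have h2 : l ∣ 2 ^ 5 := h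
    exact (Nat.prime_dvd_prime_iff_eq hl Nat.prime_two).1 (hl.dvd_of_dvd_pow h2)
  have hprodz : ((∏ p ∈ S, p : ℕ) : ℤ) = (D : ℤ) := by exact_mod_cast hprod
  have hB0' : (8 * (D : ℤ) ^ 2) ≠ 0 := mul_ne_zero (by norm_num) (pow_ne_zero 2 hDp.ne')
  have hB0 : (((8 * (D : ℤ) ^ 2 : ℤ)) : ℚ_[2]) ≠ 0 := Int.cast_ne_zero.2 hB0'
  have hsum : ∀ x : ℕ → ZMod 2, (∀ p, ¬ (p ∈ S ∧ P p) → x p = 0) → ∀ p,
      ∑ q ∈ S.filter P, (s4 p * s4 q) * x q = s4 p * ∑ q ∈ S, s4 q * x q := by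
    intro x hx p
    rw [Finset.mul_sum, Finset.sum_subset (Finset.filter_subset P S)]
    · refine Finset.sum_congr rfl fun q _ => ?_
      ring
    · intro q _ hq
      rw [hx q (fun h => hq (Finset.mem_filter.2 h)), mul_zero]
  ext d
  constructor
  · rintro ⟨hsq, hR, hp⟩
    have hL : ∀ (l : ℕ) [Fact l.Prime], LSol (8 * ((∏ p ∈ S, p : ℕ) : ℤ))
        (8 * ((∏ p ∈ S, p : ℕ) : ℤ) ^ 2) d l := by
      intro l _
      rw [hprodz]
      exact lsol_of_qs hsq (hp l)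
    have hu := eq_uu P S hS' d
    have hv := of_two (uu_sqf (P := P) hS' hsq) (fun l hl hlv => by
      have h1 := uu_dvd hyp hsq hL hl hlv
      have h2 : l ∣ 8 := by exact_mod_cast h1
      have h3 : l ∣ 2 ^ 3 := h2
      exact (Nat.prime_dvd_prime_iff_eq hl Nat.prime_two).1 (hl.dvd_of_dvd_pow h3))
    have hx : ∀ p, ¬ (p ∈ S ∧ P p) → xx P S d p = 0 := fun p hp => xx_zero hp
    have hn1 := sgn_prod (S := S) (x := xx P S d) fun q hq => hP8 q (TT_sub hq) (P_of_TT hx hq)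
    rw [TT_xx] at hn1
    have hσ := sgn_pm S (xx P S d)
    set σ := sgn S (xx P S d) with hσd
    set n : ℤ := ((∏ q ∈ dv P S d, q : ℕ) : ℤ) with hn
    set v := uu P S d with hvd
    have hn0 : n ≠ 0 := by
      intro h
      rw [h, mul_zero] at hn1
      norm_num at hn1
    have hσ0 : σ ≠ 0 := by rcases hσ with h | h <;> rw [h] <;> norm_num
    have hv0 : v ≠ 0 := (uu_sqf (P := P) hS' hsq).ne_zero
    have hQ : Qs ℚ_[2] (8 * (D : ℤ)) (8 * (D : ℤ) ^ 2) (v * σ) := by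
      have h1 := qs_mul (K := ℚ_[2]) (a := 8 * (D : ℤ)) (b := 8 * (D : ℤ) ^ 2) (d := d)
        (d' := σ * n) hB0 (by exact_mod_cast hsq.ne_zero)
        (by exact_mod_cast mul_ne_zero hσ0 hn0) (hp 2) (qs_sq (sq_two hn1))
      have h3 : d * (σ * n) = (v * σ) * n ^ 2 := by
        rw [hu]
        ring
      rw [h3] at h1
      exact qs_of_sq (by exact_mod_cast mul_ne_zero hv0 hσ0) (by exact_mod_cast hn0) h1
    have hvσ : v * σ = 1 ∨ v * σ = 2 := by
      have h4 : v * σ = 1 ∨ v * σ = -1 ∨ v * σ = 2 ∨ v * σ = -2 := by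
        rcases hv with h | h | h | h <;> rcases hσ with h' | h' <;> rw [h, h'] <;> norm_num
      rcases h4 with h4 | h4 | h4 | h4
      · exact Or.inl h4
      · exfalso
        rw [h4] at hQ
        refine q2_no_neg_one hDz (lsol_of_qs ?_ hQ)
        rw [← Int.squarefree_natAbs]
        norm_num
      · exact Or.inr h4
      · exfalso
        rw [h4] at hQ
        refine q2_no_neg_two hDz (lsol_of_qs ?_ hQ)
        rw [← Int.squarefree_natAbs]
        exact Nat.prime_two.squarefree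
    have hσσ : σ * σ = 1 := by rcases hσ with h | h <;> rw [h] <;> norm_num
    refine ⟨xx P S d, ⟨hx, fun p hpS hpP => ?_⟩, v * σ, hvσ, ?_⟩
    · haveI : Fact p.Prime := ⟨hS' p hpS⟩
      rw [row hM hyp hsq hL hpS hpP, hsum _ hx, ← nz_sgn (hS' p hpS) (hS p hpS).2, ← hσd, ← hvd]
      have h5 : v = (v * σ) * σ := by rw [mul_assoc, hσσ, mul_one]
      conv_lhs => rw [h5]
      rw [nz_mul (u_ne (hS' p hpS) (hS p hpS).2 hvσ) (pm_ne (hS' p hpS) hσ),
        nz_u ((hP2 p hpS).1 hpP) hvσ, zero_add]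
    · rw [TT_xx, ← hσd, mul_assoc v, hσσ, mul_one]
      exact hu
  · rintro ⟨x, ⟨hx, hrow⟩, u, hu, rfl⟩
    have hσ := sgn_pm S x
    have h2u := two_u hu hσ
    have hTP : ∀ q ∈ TT S x, P q := fun q hq => P_of_TT hx hq
    have hdv := dv_TT (P := P) hS (TT_sub (S := S) (x := x)) hTP h2u.1
    have huu := uu_TT (P := P) hS (TT_sub (S := S) (x := x)) hTP h2u.1
    have hxx := xx_TT hx hdv
    have hn1 := sgn_prod (S := S) (x := x) fun q hq => hP8 q (TT_sub hq) (hTP q hq)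
    have hTpos : (0 : ℤ) < ((∏ q ∈ TT S x, q : ℕ) : ℤ) := by
      exact_mod_cast Finset.prod_pos fun q hq => (hS' q (TT_sub hq)).pos
    have hsf := sqf_TT (S := S) hS (TT_sub (S := S) (x := x)) h2u.2 h2u.1
    have hσ0 : sgn S x ≠ 0 := by rcases hσ with h | h <;> rw [h] <;> norm_num
    have hc := crit (P := P) (S := S) Pool.Agent.U739.GE.t_GOOD hM hM2 hyp
      (d := ((∏ q ∈ TT S x, q : ℕ) : ℤ) * (u * sgn S x))
      hsf (by rw [huu]; exact h2u.1.2) (by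
        intro p hp hPp
        haveI : Fact p.Prime := ⟨hS' p hp⟩
        rw [hxx, huu, hrow p hp hPp, hsum x hx, ← nz_sgn (hS' p hp) (hS p hp).2,
          nz_mul (u_ne (hS' p hp) (hS p hp).2 hu) (pm_ne (hS' p hp) hσ),
          nz_u ((hP2 p hp).1 hPp) hu, zero_add])
      (by
        rw [hprodz]
        exact real_all hDp hsf.ne_zero) (by
        intro _
        rw [hprodz]
        have e : ((∏ q ∈ TT S x, q : ℕ) : ℤ) * (u * sgn S x) =
            (sgn S x * ((∏ q ∈ TT S x, q : ℕ) : ℤ)) * u := by ring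
        rw [e]
        rcases hu with rfl | rfl
        · rw [mul_one]
          exact qs_sq (sq_two hn1)
        · exact qs_mul hB0 (by exact_mod_cast mul_ne_zero hσ0 hTpos.ne') (by norm_num)
            (qs_sq (sq_two hn1)) (q2c _))
    rw [hprodz] at hc
    exact hc

end

theorem t_DSCE : S_DSCE := by
  intro hCFG D hsf hodd
  have hD0 : 0 < D := by omega
  have hprod : ∏ p ∈ D.primeFactors, p = D := Nat.prod_primeFactors_of_squarefree hsf
  have hS : ∀ p ∈ D.primeFactors, p.Prime ∧ p ≠ 2 := by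
    intro p hp
    refine ⟨Nat.prime_of_mem_primeFactors hp, ?_⟩
    rintro rfl
    have := Nat.dvd_of_mem_primeFactors hp
    omega
  have n2 : ¬ IsSquare (2 : ℤ) := by
    rintro ⟨r, hr⟩
    have h1 : r ≤ 1 := by nlinarith
    have h2 : -1 ≤ r := by nlinarith
    interval_cases r <;> omega
  have n8 : ¬ IsSquare (8 : ℤ) := by
    rintro ⟨r, hr⟩
    have h1 : r ≤ 2 := by nlinarith
    have h2 : -2 ≤ r := by nlinarith
    interval_cases r <;> omega
  have hMod : Mod 2 8 8 := ⟨by norm_num, by norm_num, by norm_num, by norm_num⟩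
  obtain ⟨hOk, hSp, hIn⟩ := hCFG 2 8 8 hMod n2 n8
  have hp8 : ∀ p ∈ D.primeFactors, ¬ p ∣ 8 := by
    intro p hp h
    have h2 : p ∣ 2 ^ 3 := h
    exact (hS p hp).2 ((Nat.prime_dvd_prime_iff_eq (hS p hp).1 Nat.prime_two).1
      ((hS p hp).1.dvd_of_dvd_pow h2))
  have h28 : ∀ p ∈ D.primeFactors, (IsSquare ((8 : ℤ) : ZMod p) ↔ IsSquare ((2 : ℤ) : ZMod p)) := by
    intro p hp
    haveI : Fact p.Prime := ⟨(hS p hp).1⟩
    have n2 : (2 : ZMod p) ≠ 0 := by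
      exact_mod_cast Pool.Agent.Y687.prime_cast_ne (hS p hp).1 2 Nat.prime_two (hS p hp).2
    constructor
    · rintro ⟨s, hs⟩
      refine ⟨s / 2, ?_⟩
      push_cast at hs ⊢
      field_simp
      linear_combination hs
    · rintro ⟨s, hs⟩
      refine ⟨2 * s, ?_⟩
      push_cast at hs ⊢
      linear_combination 4 * hs
  have h232 : ∀ p ∈ D.primeFactors, (IsSquare ((32 : ℤ) : ZMod p) ↔ IsSquare ((2 : ℤ) : ZMod p)) := by
    intro p hp
    haveI : Fact p.Prime := ⟨(hS p hp).1⟩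
    have n2 : (2 : ZMod p) ≠ 0 := by
      exact_mod_cast Pool.Agent.Y687.prime_cast_ne (hS p hp).1 2 Nat.prime_two (hS p hp).2
    have n4 : (4 : ZMod p) ≠ 0 := by
      rw [show (4 : ZMod p) = 2 ^ 2 by norm_num]
      exact pow_ne_zero 2 n2
    constructor
    · rintro ⟨s, hs⟩
      refine ⟨s / 4, ?_⟩
      push_cast at hs ⊢
      field_simp
      linear_combination hs
    · rintro ⟨s, hs⟩
      refine ⟨4 * s, ?_⟩
      push_cast at hs ⊢
      linear_combination 16 * hs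
  have hP2 : ∀ p ∈ D.primeFactors, (Hc (cfg 2 8 8) p ↔ IsSquare ((2 : ℤ) : ZMod p)) := by
    intro p hp
    have h1 := hSp p (hS p hp).1
    constructor
    · intro h
      exact (h1.1 ⟨(hS p hp).1, h⟩).2.1
    · intro h
      exact (h1.2 ⟨hp8 p hp, h, (h28 p hp).2 h⟩).2
  have hP8 : ∀ p ∈ D.primeFactors, Hc (cfg 2 8 8) p → p % 8 = 1 ∨ p % 8 = 7 := by
    intro p hp h
    haveI : Fact p.Prime := ⟨(hS p hp).1⟩
    have h1 := (hP2 p hp).1 h
    exact (ZMod.exists_sq_eq_two_iff (hS p hp).2).1 (by exact_mod_cast h1)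
  have hyp1 : Hyp (-4) 2 8 (Hc (cfg 2 8 8)) D.primeFactors := by
    intro p hp
    refine ⟨(hS p hp).1, hp8 p hp, ?_⟩
    have e : ((-4 : ℤ) ^ 2 - 4 * 2) = 8 := by norm_num
    rw [e]
    by_cases h : IsSquare ((2 : ℤ) : ZMod p)
    · exact Or.inl ⟨(hP2 p hp).2 h, h, (h28 p hp).2 h⟩
    · exact Or.inr ⟨fun h' => h ((hP2 p hp).1 h'), h, fun h' => h ((h28 p hp).1 h')⟩
  have hyp2 : Hyp 8 8 32 (Hc (cfg 2 8 8)) D.primeFactors := by
    intro p hp
    refine ⟨(hS p hp).1, ?_, ?_⟩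
    · intro h
      have h2 : p ∣ 2 ^ 5 := h
      exact (hS p hp).2 ((Nat.prime_dvd_prime_iff_eq (hS p hp).1 Nat.prime_two).1
        ((hS p hp).1.dvd_of_dvd_pow h2))
    have e : ((8 : ℤ) ^ 2 - 4 * 8) = 32 := by norm_num
    rw [e]
    by_cases h : IsSquare ((2 : ℤ) : ZMod p)
    · exact Or.inl ⟨(hP2 p hp).2 h, (h28 p hp).2 h, (h232 p hp).2 h⟩
    · exact Or.inr ⟨fun h' => h ((hP2 p hp).1 h'), fun h' => h ((h28 p hp).1 h'),
        fun h' => h ((h232 p hp).1 h')⟩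
  have s1 := sel_one hodd hprod hS hP2 hP8 ⟨by norm_num, by norm_num, by norm_num, by norm_num⟩ hyp1
  have s2 := sel_two hodd hprod hS hP2 hP8 ⟨by norm_num, by norm_num, by norm_num, by norm_num⟩ hyp2
  have hgm : ∀ p q, gm 8 (fun _ => 1) p q = 0 := by
    intro p q
    unfold gm
    refine Finset.sum_eq_zero fun g _ => ?_
    have : Pool.Agent.U79.GZ.nz q 1 = 0 := if_pos ⟨1, by norm_num⟩
    rw [this, mul_zero]
  have hKn : Kn (cfg 2 8 8) (gm 8 fun _ => 1) (ff (-4) 2) D.primeFactors =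
      {x : ℕ → ZMod 2 | (∀ p, ¬ (p ∈ D.primeFactors ∧ Hc (cfg 2 8 8) p) → x p = 0) ∧
      ∀ p ∈ D.primeFactors, Hc (cfg 2 8 8) p →
      ∑ q ∈ D.primeFactors, nr p q * (x q + x p) + ff (-4) 2 p * x p = 0}.ncard := by
    unfold Kn Sol
    congr 1
    ext x
    simp only [hgm, zero_mul, Finset.sum_const_zero, add_zero]
  have htr : {x : ℕ → ZMod 2 | (∀ p, ¬ (p ∈ D.primeFactors ∧ Hc (cfg 2 8 8) p) → x p = 0) ∧
      ∀ p ∈ D.primeFactors, Hc (cfg 2 8 8) p →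
      ∑ q ∈ D.primeFactors, nr p q * (x q + x p) + ff 8 8 p * x p =
        ∑ q ∈ D.primeFactors.filter (Hc (cfg 2 8 8)), (s4 p * s4 q) * x q}.ncard =
      {x : ℕ → ZMod 2 | (∀ p, ¬ (p ∈ D.primeFactors ∧ Hc (cfg 2 8 8) p) → x p = 0) ∧
      ∀ p ∈ D.primeFactors, Hc (cfg 2 8 8) p →
      ∑ q ∈ D.primeFactors, nr p q * (x q + x p) + ff (-4) 2 p * x p = 0}.ncard := by
    rw [K_eq (ff 8 8) (fun x p => ∑ q ∈ D.primeFactors.filter (Hc (cfg 2 8 8)), (s4 p * s4 q) * x q)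
      (fun p q => s4 p * s4 q) (fun x p => rfl),
      K_eq (ff (-4) 2) (fun _ _ => 0) (fun _ _ => 0) (fun x p => by simp)]
    refine ker_tr _ (fun p q => nr p q + 0 + if p = q then ∑ r ∈ D.primeFactors, nr p r +
      ff (-4) 2 p else 0) (fun p q => nr p q + s4 p * s4 q + if p = q then
      ∑ r ∈ D.primeFactors, nr p r + ff 8 8 p else 0) ?_
    intro p hp q hq
    obtain ⟨hpS, hpP⟩ := Finset.mem_filter.1 hp
    obtain ⟨hqS, hqP⟩ := Finset.mem_filter.1 hq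
    by_cases hpq : p = q
    · subst hpq
      simp only [if_true]
      rw [ff_dual (hS p hpS).1 (hS p hpS).2 ((hP2 p hpS).1 hpP)]
      generalize nr p p = a1
      generalize s4 p = a2
      generalize ∑ r ∈ D.primeFactors, nr p r = a3
      generalize ff (-4) 2 p = a4
      revert a1 a2 a3 a4
      decide
    · simp only [if_neg hpq, if_neg (Ne.symm hpq)]
      rw [recip (hS p hpS).1 (hS q hqS).1 (hS p hpS).2 (hS q hqS).2 hpq, add_zero, add_zero]
  rw [hKn]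
  constructor
  · unfold sel
    rw [s1]
    exact count hS (fun x hx => hx.1) (fun _ => 1) fun _ => Or.inl rfl
  · unfold sel
    rw [s2, ← htr]
    exact count hS (fun x hx => hx.1) (sgn D.primeFactors) fun x => sgn_pm _ x

end Pool.Agent.U263.GZE
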