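import Pool.Agent.U79.GZ.Stm
import Pool.Agent.U263.GY.CFG
import Pool.Agent.U454.GY.DEN

/-!
# Project GZ (helper79), part GAM: the correction and the residues
-/

set_option autoImplicit false

open scoped Classical

namespace Pool.Agent.U263.GZ

open Finset hiding ext
open Pool.Agent.U79.GY (Cfg Hc Ok Sp In Mod cfg S_CFG da db dl s4)
open Pool.Agent.U79.GZ
open Pool.Agent.N713.GB (J_mod exists_neg)
open Pool.Agent.U454.GY (U card_U sum_zero jac_mul)
open Pool.Agent.U263.GY (cop_mod mem_A mem_B cop_dvd mod_sym mod_mem_A mod_mem_B cop_iff ne_zero_of)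

variable {b c : ℤ} {M : ℕ}

theorem z2 (x : ZMod 2) : x = 0 ∨ x = 1 := by
  revert x
  decide

/-- `nz` by the Legendre symbol -/
theorem nz_leg (p : ℕ) [Fact p.Prime] {z : ℤ} (hz : (z : ZMod p) ≠ 0) :
    nz p z = if legendreSym p z = 1 then 0 else 1 := by
  unfold nz
  by_cases h : IsSquare (z : ZMod p)
  · rw [if_pos h, if_pos ((legendreSym.eq_one_iff p hz).2 h)]
  · rw [if_neg h, if_neg (fun h' => h ((legendreSym.eq_one_iff p hz).1 h'))]

theorem nz_mul (p : ℕ) [Fact p.Prime] {x y : ℤ} (hx : (x : ZMod p) ≠ 0) (hy : (y : ZMod p) ≠ 0) :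
    nz p (x * y) = nz p x + nz p y := by
  have hxy : ((x * y : ℤ) : ZMod p) ≠ 0 := by
    rw [Int.cast_mul]
    exact mul_ne_zero hx hy
  rw [nz_leg p hx, nz_leg p hy, nz_leg p hxy, legendreSym.mul]
  rcases legendreSym.eq_one_or_neg_one p hx with h1 | h1 <;>
    rcases legendreSym.eq_one_or_neg_one p hy with h2 | h2 <;> rw [h1, h2] <;> decide

theorem nz_one (p : ℕ) : nz p 1 = 0 := by
  unfold nz
  rw [Int.cast_one, if_pos]
  exact ⟨1, by simp⟩

theorem nz_prod (p : ℕ) [Fact p.Prime] (T : Finset ℕ) (hT : ∀ l ∈ T, ((l : ℤ) : ZMod p) ≠ 0) :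
    nz p ((∏ l ∈ T, l : ℕ) : ℤ) = ∑ l ∈ T, nz p (l : ℤ) := by
  induction T using Finset.induction_on with
  | empty => simp only [Finset.prod_empty, Finset.sum_empty, Nat.cast_one]; exact nz_one p
  | insert a s ha ih =>
    rw [Finset.prod_insert ha, Finset.sum_insert ha, Nat.cast_mul, nz_mul p
      (hT a (Finset.mem_insert_self a s)), ih fun l hl => hT l (Finset.mem_insert_of_mem hl)]
    have h1 : ∀ l ∈ s, ((l : ℤ) : ZMod p) ≠ 0 := fun l hl => hT l (Finset.mem_insert_of_mem hl)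
    rw [Nat.cast_prod, Int.cast_prod]
    exact Finset.prod_ne_zero_iff.2 h1

/-- the primes of `M` are not zero modulo `p` -/
theorem cast_ne {p : ℕ} (_hp : p.Prime) (hpM : ¬ p ∣ M) {l : ℕ} (hl : l ∈ M.primeFactors) :
    ((l : ℤ) : ZMod p) ≠ 0 := by
  rw [Int.cast_natCast]
  intro h
  rw [ZMod.natCast_eq_zero_iff] at h
  exact hpM (h.trans (Nat.dvd_of_mem_primeFactors hl))

theorem neg_one_ne {p : ℕ} (hp : p.Prime) : (((-1 : ℤ)) : ZMod p) ≠ 0 := by
  have : Fact p.Prime := ⟨hp⟩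
  rw [Int.cast_neg, Int.cast_one]
  exact neg_ne_zero.2 one_ne_zero

theorem mem_ZZ {z : ℤ} : z ∈ ZZ M ↔ ∃ (s : ℤ) (T : Finset ℕ), (s = 1 ∨ s = -1) ∧
    T ⊆ M.primeFactors ∧ z = s * ((∏ l ∈ T, l : ℕ) : ℤ) := by
  unfold ZZ
  rw [Finset.mem_image]
  constructor
  · rintro ⟨⟨s, T⟩, h1, rfl⟩
    rw [Finset.mem_product, Finset.mem_insert, Finset.mem_singleton, Finset.mem_powerset] at h1
    exact ⟨s, T, h1.1, h1.2, rfl⟩
  · rintro ⟨s, T, h1, h2, rfl⟩
    refine ⟨(s, T), ?_, rfl⟩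
    rw [Finset.mem_product, Finset.mem_insert, Finset.mem_singleton, Finset.mem_powerset]
    exact ⟨h1, h2⟩

/-- the elements of `Gn` -/
theorem mem_Gn {g : ℤ} : g ∈ Gn M ↔ g = -1 ∨ ∃ l ∈ M.primeFactors, g = ((l : ℕ) : ℤ) := by
  unfold Gn
  rw [Finset.mem_insert]
  refine or_congr Iff.rfl ?_
  simp only [Finset.mem_image, Finset.bind_def, Finset.pure_def, Finset.mem_sup,
    Finset.mem_singleton]
  constructor
  · rintro ⟨a, ⟨l, hl, h1⟩, h2⟩
    exact ⟨l, hl, h2.symm.trans h1⟩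
  · rintro ⟨l, hl, h1⟩
    exact ⟨g, ⟨l, hl, h1⟩, rfl⟩

theorem Gn_sub {g : ℤ} (hg : g ∈ Gn M) : g ∈ ZZ M := by
  rw [mem_Gn] at hg
  rw [mem_ZZ]
  rcases hg with rfl | ⟨l, hl, rfl⟩
  · exact ⟨-1, ∅, Or.inr rfl, Finset.empty_subset _, by simp⟩
  · exact ⟨1, {l}, Or.inl rfl, Finset.singleton_subset_iff.2 hl, by simp⟩

theorem ZZ_dvd (_hM : 0 < M) {z : ℤ} (hz : z ∈ ZZ M) : z.natAbs ∣ M := by
  obtain ⟨s, T, hs, hT, rfl⟩ := mem_ZZ.1 hz
  have h1 : (∏ l ∈ T, l) ∣ M :=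
    (Finset.prod_dvd_prod_of_subset T M.primeFactors (fun l => l) hT).trans
      (Nat.prod_primeFactors_dvd M)
  rw [Int.natAbs_mul, Int.natAbs_natCast]
  rcases hs with rfl | rfl
  · rw [Int.natAbs_one, one_mul]
    exact h1
  · rw [Int.natAbs_neg, Int.natAbs_one, one_mul]
    exact h1

/-- the functions spanned by the symbols of `-1` and the primes of `M` -/
def Lin (M : ℕ) (f : ℕ → ZMod 2) : Prop := ∃ (e : ZMod 2) (ε : ℕ → ZMod 2), ∀ p : ℕ, p.Prime →
  ¬ p ∣ M → f p = e * nz p (-1) + ∑ l ∈ M.primeFactors, ε l * nz p (l : ℤ)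

theorem Lin_zero : Lin M (fun _ => 0) := ⟨0, fun _ => 0, fun p _ _ => by simp⟩

theorem Lin_add {f g : ℕ → ZMod 2} (hf : Lin M f) (hg : Lin M g) : Lin M (fun p => f p + g p) := by
  obtain ⟨e, ε, h1⟩ := hf
  obtain ⟨e', ε', h2⟩ := hg
  refine ⟨e + e', fun l => ε l + ε' l, fun p hp hpM => ?_⟩
  simp only [add_mul, Finset.sum_add_distrib]
  rw [h1 p hp hpM, h2 p hp hpM]
  ring

theorem Lin_mul {f : ℕ → ZMod 2} (hf : Lin M f) (a : ZMod 2) : Lin M (fun p => f p * a) := by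
  rcases z2 a with rfl | rfl
  · simpa using Lin_zero (M := M)
  · simpa using hf

theorem Lin_sum {α : Type} (s : Finset α) (f : α → ℕ → ZMod 2) (h : ∀ i ∈ s, Lin M (f i)) :
    Lin M (fun p => ∑ i ∈ s, f i p) := by
  induction s using Finset.induction_on with
  | empty => simpa using Lin_zero (M := M)
  | insert a s ha ih =>
    have h1 := Lin_add (h a (Finset.mem_insert_self a s))
      (ih fun i hi => h i (Finset.mem_insert_of_mem hi))
    refine Exists.imp ?_ h1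
    intro e
    refine Exists.imp ?_
    intro ε h2 p hp hpM
    rw [← h2 p hp hpM]
    exact Finset.sum_insert ha

theorem Lin_of_mem {z : ℤ} (hz : z ∈ ZZ M) : Lin M (fun p => nz p z) := by
  obtain ⟨s, T, hs, hT, rfl⟩ := mem_ZZ.1 hz
  refine ⟨if s = 1 then 0 else 1, fun l => if l ∈ T then 1 else 0, fun p hp hpM => ?_⟩
  have : Fact p.Prime := ⟨hp⟩
  have h0 : ∀ l ∈ T, ((l : ℤ) : ZMod p) ≠ 0 := fun l hl => cast_ne hp hpM (hT hl)
  have h1 : (((∏ l ∈ T, l : ℕ) : ℤ) : ZMod p) ≠ 0 := by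
    rw [Nat.cast_prod, Int.cast_prod]
    exact Finset.prod_ne_zero_iff.2 h0
  have h2 : ∑ l ∈ M.primeFactors, (if l ∈ T then (1 : ZMod 2) else 0) * nz p (l : ℤ) =
      ∑ l ∈ T, nz p (l : ℤ) := by
    simp only [ite_mul, one_mul, zero_mul]
    rw [← Finset.sum_filter]
    congr 1
    ext l
    rw [Finset.mem_filter]
    exact ⟨fun h => h.2, fun h => ⟨hT h, h⟩⟩
  show nz p (s * ((∏ l ∈ T, l : ℕ) : ℤ)) = _
  rw [h2, ← nz_prod p T h0]
  rcases hs with rfl | rfl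
  · rw [if_pos rfl, one_mul, zero_mul, zero_add]
  · rw [if_neg (by norm_num), one_mul, nz_mul p (neg_one_ne hp) h1]

theorem mem_of_Lin {f : ℕ → ZMod 2} (hf : Lin M f) :
    ∃ z ∈ ZZ M, ∀ p : ℕ, p.Prime → ¬ p ∣ M → f p = nz p z := by
  obtain ⟨e, ε, h⟩ := hf
  refine ⟨(if e = 1 then -1 else 1) *
    ((∏ l ∈ M.primeFactors.filter (fun l => ε l = 1), l : ℕ) : ℤ), mem_ZZ.2 ⟨_, _, ?_,
      Finset.filter_subset _ _, rfl⟩, fun p hp hpM => ?_⟩
  · split_ifs
    · exact Or.inr rfl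
    · exact Or.inl rfl
  · have : Fact p.Prime := ⟨hp⟩
    have h0 : ∀ l ∈ M.primeFactors.filter (fun l => ε l = 1), ((l : ℤ) : ZMod p) ≠ 0 :=
      fun l hl => cast_ne hp hpM (Finset.mem_filter.1 hl).1
    have h1 : (((∏ l ∈ M.primeFactors.filter (fun l => ε l = 1), l : ℕ) : ℤ) : ZMod p) ≠ 0 := by
      rw [Nat.cast_prod, Int.cast_prod]
      exact Finset.prod_ne_zero_iff.2 h0
    have h2 : ∑ l ∈ M.primeFactors, ε l * nz p (l : ℤ) =
        ∑ l ∈ M.primeFactors.filter (fun l => ε l = 1), nz p (l : ℤ) := by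
      rw [Finset.sum_filter]
      refine Finset.sum_congr rfl fun l _ => ?_
      rcases z2 (ε l) with h3 | h3
      · rw [h3, zero_mul, if_neg (by decide)]
      · rw [h3, one_mul, if_pos rfl]
    rw [h p hp hpM, h2, ← nz_prod p _ h0]
    rcases z2 e with rfl | rfl
    · rw [if_neg (by decide), one_mul, zero_mul, zero_add]
    · rw [if_pos rfl, one_mul, nz_mul p (neg_one_ne hp) h1]

/-- `s4` is the symbol of `-1` -/
theorem s4_eq (_hM : 2 ∣ M) {p : ℕ} (hp : p.Prime) (_hpM : ¬ p ∣ M) : s4 p = nz p (-1) := by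
  have : Fact p.Prime := ⟨hp⟩
  unfold s4 nz
  rw [Int.cast_neg, Int.cast_one]
  by_cases h : p % 4 = 3
  · rw [if_pos h, if_neg]
    rw [ZMod.exists_sq_eq_neg_one_iff]
    exact fun h' => h' h
  · rw [if_neg h, if_pos]
    rw [ZMod.exists_sq_eq_neg_one_iff]
    exact h

theorem perz (hM : Mod b c M) {z : ℤ} (hz : z ∈ ZZ M) {p p' : ℕ} (hp : p.Prime) (hpM : ¬ p ∣ M)
    (hp' : p'.Prime) (hpM' : ¬ p' ∣ M) (h : p % (4 * M) = p' % (4 * M)) : nz p z = nz p' z := by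
  have : Fact p.Prime := ⟨hp⟩
  have : Fact p'.Prime := ⟨hp'⟩
  have hd := ZZ_dvd hM.pos hz
  rw [nz_leg p (ne_zero_of hd hpM), nz_leg p' (ne_zero_of hd hpM'),
    jacobiSym.legendreSym.to_jacobiSym, jacobiSym.legendreSym.to_jacobiSym,
    J_mod (Nat.mul_dvd_mul_left 4 hd) (cop_dvd hM ((cop_iff hM hp).2 hpM)).1
      (cop_dvd hM ((cop_iff hM hp').2 hpM')).1 h]

theorem ga (hC : S_CFG) (hM : Mod b c M) (hb : ¬ IsSquare b) (hc : ¬ IsSquare c) (w : ℤ → ℤ)
    (hw : ∀ g ∈ Gn M, w g ∈ ZZ M) : Ga (cfg b c M) (gm M w) (ZZ M) := by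
  have hSp : ∀ p, Sp (cfg b c M) p → p.Prime ∧ ¬ p ∣ M := fun p h =>
    ⟨h.1, (((hC b c M hM hb hc).2.1 p h.1).1 h).1⟩
  refine ⟨?_, ?_, ?_, ?_⟩
  · intro p p' q q' hp hp' hq hq' h1 h2
    unfold gm
    refine Finset.sum_congr rfl fun g hg => ?_
    rw [perz hM (Gn_sub hg) (hSp p hp).1 (hSp p hp).2 (hSp p' hp').1 (hSp p' hp').2 h1,
      perz hM (hw g hg) (hSp q hq).1 (hSp q hq).2 (hSp q' hq').1 (hSp q' hq').2 h2]
  · intro z hz p p' hp hp' h
    exact perz hM hz (hSp p hp).1 (hSp p hp).2 (hSp p' hp').1 (hSp p' hp').2 h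
  · intro T hT
    have h1 : Lin M (fun p => ∑ u ∈ T, gm M w p u) := by
      unfold gm
      refine Lin_sum T (fun u p => ∑ g ∈ Gn M, nz p g * nz u (w g)) fun u _ => ?_
      refine Lin_sum (Gn M) (fun g p => nz p g * nz u (w g)) fun g hg => ?_
      exact Lin_mul (Lin_of_mem (Gn_sub hg)) _
    obtain ⟨z, hz, h2⟩ := mem_of_Lin h1
    exact ⟨z, hz, fun p hp => h2 p (hSp p hp).1 (hSp p hp).2⟩
  · intro T hT
    have h1 : Lin M (fun p => ∑ u ∈ T, (gm M w u p + nz p (-1) * s4 u)) := by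
      unfold gm
      refine Lin_sum T (fun u p => ∑ g ∈ Gn M, nz u g * nz p (w g) + nz p (-1) * s4 u) fun u _ => ?_
      refine Lin_add ?_ (Lin_mul (Lin_of_mem (Gn_sub (mem_Gn.2 (Or.inl rfl)))) _)
      refine Lin_sum (Gn M) (fun g p => nz u g * nz p (w g)) fun g hg => ?_
      have h3 := Lin_mul (Lin_of_mem (hw g hg)) (nz u g)
      simpa only [mul_comm] using h3
    obtain ⟨z, hz, h2⟩ := mem_of_Lin h1
    refine ⟨z, hz, fun p hp => ?_⟩
    rw [s4_eq hM.two (hSp p hp).1 (hSp p hp).2]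
    exact h2 p (hSp p hp).1 (hSp p hp).2

/-- the residues -/
theorem res_iff (hM : Mod b c M) (n : ℕ) : n % (cfg b c M).Q ∈ Rs M ↔ Pr M n := by
  have hQ : (cfg b c M).Q = 4 * M := rfl
  have hp : 0 < 4 * M := Nat.mul_pos (by norm_num) hM.pos
  have h8 : 8 ∣ 4 * M := by
    obtain ⟨k, hk⟩ := hM.two
    exact ⟨k, by omega⟩
  rw [hQ]
  unfold Rs
  rw [Finset.mem_filter, Finset.mem_range]
  have h1 : Pr M (n % (4 * M)) ↔ Pr M n := by
    unfold Pr
    rw [Nat.mod_mod_of_dvd n h8]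
    have h2 : ∀ l : ℕ, l ∣ M → jacobiSym ((n % (4 * M) : ℕ) : ℤ) l = jacobiSym (n : ℤ) l := by
      intro l hl
      rw [jacobiSym.mod_left ((n % (4 * M) : ℕ) : ℤ) l, jacobiSym.mod_left (n : ℤ) l]
      congr 1
      rw [← Int.natCast_mod, ← Int.natCast_mod, Nat.mod_mod_of_dvd n (hl.mul_left 4)]
    constructor
    · rintro ⟨h3, h4⟩
      exact ⟨h3, fun l h5 h6 h7 => by rw [← h2 l h7]; exact h4 l h5 h6 h7⟩
    · rintro ⟨h3, h4⟩
      exact ⟨h3, fun l h5 h6 h7 => by rw [h2 l h7]; exact h4 l h5 h6 h7⟩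
  exact ⟨fun h => h1.1 h.2, fun h => ⟨Nat.mod_lt _ hp, h1.2 h⟩⟩

theorem sq_Pr (hM : Mod b c M) {n : ℕ} (hn : Nat.Coprime n (4 * M)) : Pr M (n * n) := by
  refine ⟨?_, fun l hl h2 hlM => ?_⟩
  · have h1 := (cop_dvd hM hn).1
    obtain ⟨k, hk⟩ := h1
    have h2 : k % 4 = 0 ∨ k % 4 = 1 ∨ k % 4 = 2 ∨ k % 4 = 3 := by omega
    have h3 : n % 8 = 1 ∨ n % 8 = 3 ∨ n % 8 = 5 ∨ n % 8 = 7 := by omega
    rw [Nat.mul_mod]
    rcases h3 with h | h | h | h <;> rw [h]
  · have h1 : Nat.Coprime n l := hn.coprime_dvd_right (hlM.mul_left 4)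
    rw [Nat.cast_mul, jacobiSym.mul_left, ← sq]
    apply jacobiSym.sq_one
    rw [Int.gcd_natCast_natCast]
    exact h1

theorem jac_pm {x : ℤ} {m : ℕ} (h : Nat.Coprime m x.natAbs) : jacobiSym x m = 1 ∨ jacobiSym x m = -1 := by
  refine (jacobiSym.trichotomy x m).resolve_left ?_
  apply jacobiSym.ne_zero
  rw [Int.gcd, Int.natAbs_natCast, Nat.gcd_comm]
  exact h

theorem dl_one (hM : Mod b c M) (hbc : IsSquare (b * c)) : dl (cfg b c M) = 1 := by
  have hp : 0 < 4 * M := Nat.mul_pos (by norm_num) hM.pos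
  have hQ : (cfg b c M).Q = 4 * M := rfl
  have hd : Disjoint (cfg b c M).A (cfg b c M).B := by
    rw [Finset.disjoint_left]
    intro r h1 h2
    have h3 := (mem_A.1 h1).2.2.1
    rw [(mem_B.1 h2).2.2.1] at h3
    exact absurd h3 (by norm_num)
  have hu : (cfg b c M).A ∪ (cfg b c M).B = (range (4 * M)).filter fun r => Nat.Coprime (4 * M) r := by
    ext r
    rw [Finset.mem_union, mem_A, mem_B, Finset.mem_filter, Finset.mem_range]
    constructor
    · rintro (⟨h1, h2, -⟩ | ⟨h1, h2, -⟩)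
      · exact ⟨h1, h2.symm⟩
      · exact ⟨h1, h2.symm⟩
    · rintro ⟨h1, h2⟩
      have h3 := cop_dvd hM h2.symm
      obtain ⟨s, hs⟩ := hbc
      have h4 : jacobiSym b r * jacobiSym c r = 1 := by
        rw [← jacobiSym.mul_left, hs, jacobiSym.mul_left, ← sq]
        apply jacobiSym.sq_one
        have h5 : Nat.Coprime r (s * s).natAbs := by
          rw [← hs, Int.natAbs_mul]
          exact Nat.Coprime.mul_right h3.2.1 h3.2.2
        rw [Int.natAbs_mul] at h5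
        have h6 := h5.coprime_mul_right_right
        rw [Int.gcd, Int.natAbs_natCast]
        exact h6.symm
      rcases jac_pm h3.2.1 with h5 | h5 <;> rcases jac_pm h3.2.2 with h6 | h6
      · exact Or.inl ⟨h1, h2.symm, h5, h6⟩
      · rw [h5, h6] at h4
        exact absurd h4 (by norm_num)
      · rw [h5, h6] at h4
        exact absurd h4 (by norm_num)
      · exact Or.inr ⟨h1, h2.symm, h5, h6⟩
  unfold dl da db
  rw [← add_div, ← Nat.cast_add, ← Finset.card_union_of_disjoint hd, hu, hQ,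
    ← Nat.totient_eq_card_coprime, div_self]
  have := Nat.totient_pos.2 hp
  positivity

theorem sumz (hM : Mod b c M) (e1 e2 e3 : ℕ) (hn : ¬ IsSquare (b ^ e1 * c ^ e2 * (-1) ^ e3)) :
    ∑ r ∈ U (4 * M), jacobiSym b r ^ e1 * jacobiSym c r ^ e2 * jacobiSym (-1) r ^ e3 = 0 := by
  have hp : 0 < 4 * M := Nat.mul_pos (by norm_num) hM.pos
  have h2 : 2 ∣ 4 * M := ⟨2 * M, by ring⟩
  obtain ⟨n, hn1, hn2, hn3⟩ := exists_neg hn (4 * M) hp.ne'
  refine sum_zero (4 * M) hp h2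
    (fun r => jacobiSym b r ^ e1 * jacobiSym c r ^ e2 * jacobiSym (-1) r ^ e3) ?_ ?_ n hn2 ?_
  · intro x y hx hy h
    have h3 : x % (4 * M) = y % (4 * M) := h
    have h4 : 4 * (-1 : ℤ).natAbs ∣ 4 * M := by
      rw [Int.natAbs_neg, Int.natAbs_one]
      exact Nat.mul_dvd_mul_left 4 (one_dvd M)
    show jacobiSym b x ^ e1 * jacobiSym c x ^ e2 * jacobiSym (-1) x ^ e3 = _
    rw [J_mod (Nat.mul_dvd_mul_left 4 hM.hb) hx hy h3, J_mod (Nat.mul_dvd_mul_left 4 hM.hc) hx hy h3,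
      J_mod h4 hx hy h3]
  · intro x y hx hy
    show jacobiSym b (x * y) ^ e1 * jacobiSym c (x * y) ^ e2 * jacobiSym (-1) (x * y) ^ e3 = _
    rw [jac_mul b x y hx hy, jac_mul c x y hx hy, jac_mul (-1) x y hx hy]
    ring
  · show jacobiSym b n ^ e1 * jacobiSym c n ^ e2 * jacobiSym (-1) n ^ e3 = -1
    rw [← jacobiSym.pow_left, ← jacobiSym.pow_left, ← jacobiSym.pow_left, ← jacobiSym.mul_left,
      ← jacobiSym.mul_left]
    exact hn3

theorem ex_r (hM : Mod b c M) (hb : ¬ IsSquare b) (hc : ¬ IsSquare c) (hb' : ¬ IsSquare (-b))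
    (hc' : ¬ IsSquare (-c)) (hbc' : ¬ IsSquare (-(b * c))) : ∃ r ∈ (cfg b c M).A, r % 4 = 3 := by
  have hp : 0 < 4 * M := Nat.mul_pos (by norm_num) hM.pos
  have s1 : ∑ r ∈ U (4 * M), jacobiSym b r = 0 := by
    have h := sumz hM 1 0 0 (by simpa using hb)
    simpa using h
  have s2 : ∑ r ∈ U (4 * M), jacobiSym c r = 0 := by
    have h := sumz hM 0 1 0 (by simpa using hc)
    simpa using h
  have s3 : ∑ r ∈ U (4 * M), jacobiSym (-1) r = 0 := by
    have h := sumz hM 0 0 1 (by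
      rw [pow_zero, pow_zero, one_mul, one_mul, pow_one]
      rintro ⟨r, hr⟩
      nlinarith [mul_self_nonneg r])
    simpa using h
  have s4 : ∑ r ∈ U (4 * M), jacobiSym b r * jacobiSym (-1) r = 0 := by
    have h := sumz hM 1 0 1 (by simpa using hb')
    simpa using h
  have s5 : ∑ r ∈ U (4 * M), jacobiSym c r * jacobiSym (-1) r = 0 := by
    have h := sumz hM 0 1 1 (by simpa using hc')
    simpa using h
  have s6 : ∑ r ∈ U (4 * M), jacobiSym b r * jacobiSym c r * jacobiSym (-1) r = 0 := by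
    have h := sumz hM 1 1 1 (by simpa using hbc')
    simpa using h
  have s7 : 0 ≤ ∑ r ∈ U (4 * M), jacobiSym b r * jacobiSym c r := by
    by_cases h : IsSquare (b * c)
    · obtain ⟨s, hs⟩ := h
      refine Finset.sum_nonneg fun r _ => ?_
      rw [← jacobiSym.mul_left, hs, jacobiSym.mul_left]
      exact mul_self_nonneg _
    · have h := sumz hM 1 1 0 (by simpa using h)
      have h' : ∑ r ∈ U (4 * M), jacobiSym b r * jacobiSym c r = 0 := by simpa using h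
      rw [h']
  have hsum : ∑ r ∈ U (4 * M), (1 + jacobiSym b r) * (1 + jacobiSym c r) * (1 - jacobiSym (-1) r) =
      (Nat.totient (4 * M) : ℤ) + ∑ r ∈ U (4 * M), jacobiSym b r * jacobiSym c r := by
    have h1 : ∀ r ∈ U (4 * M),
        (1 + jacobiSym b r) * (1 + jacobiSym c r) * (1 - jacobiSym (-1) r) =
        1 + jacobiSym b r + jacobiSym c r + jacobiSym b r * jacobiSym c r - jacobiSym (-1) r -
          jacobiSym b r * jacobiSym (-1) r - jacobiSym c r * jacobiSym (-1) r -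
          jacobiSym b r * jacobiSym c r * jacobiSym (-1) r := fun r _ => by ring
    rw [Finset.sum_congr rfl h1]
    simp only [Finset.sum_sub_distrib, Finset.sum_add_distrib]
    rw [s1, s2, s3, s4, s5, s6, Finset.sum_const, card_U]
    simp
  have hpos : 0 < ∑ r ∈ U (4 * M),
      (1 + jacobiSym b r) * (1 + jacobiSym c r) * (1 - jacobiSym (-1) r) := by
    rw [hsum]
    have := Nat.totient_pos.2 hp
    have h' : (0 : ℤ) < (Nat.totient (4 * M) : ℤ) := by exact_mod_cast this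
    linarith
  obtain ⟨r, hr, hr2⟩ : ∃ r ∈ U (4 * M),
      0 < (1 + jacobiSym b r) * (1 + jacobiSym c r) * (1 - jacobiSym (-1) r) := by
    by_contra hno
    push Not at hno
    exact absurd hpos (not_lt.2 (Finset.sum_nonpos hno))
  obtain ⟨hr3, hr4⟩ := Finset.mem_filter.1 hr
  rw [Finset.mem_range] at hr3
  obtain ⟨ho, hcb, hcc⟩ := cop_dvd hM hr4
  have hv1 := jac_pm hcb
  have hv2 := jac_pm hcc
  have hv3 : jacobiSym (-1) r = 1 ∨ jacobiSym (-1) r = -1 :=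
    jac_pm (by rw [Int.natAbs_neg, Int.natAbs_one]; exact Nat.coprime_one_right r)
  have e3 : jacobiSym (-1) r = -1 := by
    rcases hv3 with h | h
    · rw [h] at hr2
      simp at hr2
    · exact h
  have e1 : jacobiSym b r = 1 := by
    rcases hv1 with h | h
    · exact h
    · rw [h] at hr2
      simp at hr2
  have e2 : jacobiSym c r = 1 := by
    rcases hv2 with h | h
    · exact h
    · rw [h] at hr2
      simp at hr2
  refine ⟨r, mem_A.2 ⟨hr3, hr4, e1, e2⟩, ?_⟩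
  by_contra h3
  have h1 : r % 4 = 1 := by
    obtain ⟨k, hk⟩ := ho
    omega
  rw [jacobiSym.at_neg_one ho, ZMod.χ₄_nat_one_mod_four h1] at e3
  exact absurd e3 (by norm_num)

theorem t_GAM : S_GAM := by
  intro hC b c M w hM hb hc hw
  refine ⟨ga hC hM hb hc w hw, fun n hn => ?_, res_iff hM, dl_one hM, ex_r hM hb hc⟩
  rw [res_iff hM]
  exact sq_Pr hM hn

end Pool.Agent.U263.GZ
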